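import Pool.Agent.NH33.Pq.Line
import Pool.Agent.NH33.Ir.Crit3

/-!
# Doubly transitive groups and imaginary quadratic subfields
-/

set_option autoImplicit false
set_option linter.unusedSectionVars false

namespace Pool.Agent.NH33.Pq

open NumberField Polynomial Module Pool.Agent.TH121.KT Pool.Agent.Y103.Hk Pool.Agent.Y103.Sh
  Pool.Agent.NH33.Ir

variable {p : ℕ} [Fact p.Prime] {ι : Qb →+* PadicAlgCl p} {E : Type} [Field E] [NumberField E]
  [IsCMField E] {α : E}

/-- square roots of negative rational numbers are purely imaginary -/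
lemma conj_quadratic {x : E} {d : ℚ} (hd : d < 0) (hx : x ^ 2 = (d : E)) :
    IsCMField.complexConj E x = - x := by
  have h1 : (IsCMField.complexConj E x) ^ 2 = x ^ 2 := by
    rw [← map_pow, hx, map_ratCast]
  rcases sq_eq_sq_iff_eq_or_eq_neg.1 h1 with h2 | h2
  · exfalso
    obtain ⟨φ⟩ : Nonempty (E →+* ℂ) := inferInstance
    have h3 : (starRingEnd ℂ) (φ x) = φ x := by
      rw [← IsCMField.complexEmbedding_complexConj, h2]
    have h4 : (φ x) ^ 2 = (d : ℂ) := by rw [← map_pow, hx, map_ratCast]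
    obtain ⟨r, hr⟩ := Complex.conj_eq_iff_real.1 h3
    rw [hr] at h4
    have h5 : (r : ℝ) ^ 2 = (d : ℝ) := by exact_mod_cast h4
    have h6 : (d : ℝ) < 0 := by exact_mod_cast hd
    have := sq_nonneg r
    linarith
  · exact h2

lemma quadratic_ne_zero {x : E} {d : ℚ} (hd : d < 0) (hx : x ^ 2 = (d : E)) : x ≠ 0 := by
  rintro rfl
  rw [zero_pow two_ne_zero] at hx
  have h1 : d = 0 := by
    have h2 : ((0 : ℚ) : E) = (d : E) := by rw [← hx, Rat.cast_zero]
    exact_mod_cast h2.symm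
  exact hd.ne h1

lemma quadratic_pm {x : E} {d : ℚ} (hx : x ^ 2 = (d : E)) (σ τ : E →+* Qb) :
    σ x = τ x ∨ σ x = - τ x := by
  apply sq_eq_sq_iff_eq_or_eq_neg.1
  rw [← map_pow, ← map_pow, hx, map_ratCast, map_ratCast]

lemma quadratic_cj {x : E} {d : ℚ} (hd : d < 0) (hx : x ^ 2 = (d : E)) (σ : E →+* Qb) :
    cj σ x = - σ x := by
  change σ (IsCMField.complexConj E x) = - σ x
  rw [conj_quadratic hd hx, map_neg]

/-- **Doubly transitive groups**: there are no relations. -/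
theorem free_of_double (hu : ∀ φ : E →+* ℂ, ‖φ α‖ = 1) (hE : IsDoublyTransitive E)
    {x : E} {d : ℚ} (hd : d < 0) (hx : x ^ 2 = (d : E))
    (hq : NoQuadraticNormRelation ι α) (hs : SlopesNotQuadratic ι α) : Free ι α := by
  classical
  rw [free_iff_rels]
  by_contra hne
  obtain ⟨f, hf, hf0⟩ := Submodule.exists_mem_ne_zero_of_ne_bot hne
  obtain ⟨σ₀⟩ : Nonempty (E →+* Qb) := ⟨(IsAlgClosed.lift : E →ₐ[ℚ] Qb).toRingHom⟩
  have hs0 : σ₀ x ≠ 0 := (map_ne_zero σ₀).2 (quadratic_ne_zero hd hx)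
  have hs1 : σ₀ x ≠ - σ₀ x := fun h => hs0 (self_eq_neg.1 h)
  -- the sign function
  let u : (E →+* Qb) → ℚ := fun σ => if σ x = σ₀ x then 1 else -1
  have hu1 : ∀ σ, (σ x = σ₀ x ∧ u σ = 1) ∨ (σ x = - σ₀ x ∧ u σ = -1) := by
    intro σ
    rcases quadratic_pm hx σ σ₀ with h | h
    · exact Or.inl ⟨h, if_pos h⟩
    · exact Or.inr ⟨h, if_neg (by rw [h]; exact fun h' => hs1 h'.symm)⟩
  have huu : ∀ σ, u σ * u σ = 1 := by
    intro σ
    rcases hu1 σ with ⟨-, h⟩ | ⟨-, h⟩ <;> rw [h] <;> norm_num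
  have hodd : IsOddFun u := by
    intro σ
    change u (cj σ) = - u σ
    have h1 := quadratic_cj hd hx σ
    rcases hu1 σ with ⟨h2, h3⟩ | ⟨h2, h3⟩ <;> rcases hu1 (cj σ) with ⟨h4, h5⟩ | ⟨h4, h5⟩ <;>
      rw [h3, h5]
    · exact absurd (h4.symm.trans (h1.trans (by rw [h2]))) hs1
    · norm_num
    · rw [h4, h2, neg_neg] at h1
      exact absurd h1.symm (by rw [neg_eq_iff_eq_neg] at h1; exact absurd h1 hs1)
  have hugg : ∀ g : GQ, ∃ c : ℚ, c * c = 1 ∧ ∀ σ, u (act g σ) = c * u σ := by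
    intro g
    have hg : g (σ₀ x) = σ₀ x ∨ g (σ₀ x) = - σ₀ x := quadratic_pm hx (act g σ₀) σ₀
    rcases hg with hg | hg
    · refine ⟨1, by norm_num, fun σ => ?_⟩
      rw [one_mul]
      rcases hu1 σ with ⟨h2, h3⟩ | ⟨h2, h3⟩ <;> rcases hu1 (act g σ) with ⟨h4, h5⟩ | ⟨h4, h5⟩ <;>
        rw [h3, h5]
      · exfalso
        change g (σ x) = _ at h4
        rw [h2, hg] at h4
        exact hs1 h4
      · exfalso
        change g (σ x) = _ at h4
        rw [h2, map_neg, hg] at h4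
        exact hs1 h4.symm
    · refine ⟨-1, by norm_num, fun σ => ?_⟩
      rcases hu1 σ with ⟨h2, h3⟩ | ⟨h2, h3⟩ <;> rcases hu1 (act g σ) with ⟨h4, h5⟩ | ⟨h4, h5⟩ <;>
        rw [h3, h5]
      · exfalso
        change g (σ x) = _ at h4
        rw [h2, hg] at h4
        exact hs1 h4.symm
      · norm_num
      · norm_num
      · exfalso
        change g (σ x) = _ at h4
        rw [h2, map_neg, hg, neg_neg] at h4
        exact hs1 h4
  have hline : ∀ g : GQ, ∃ c : ℚ, tl g u = c • u := by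
    intro g
    obtain ⟨c, -, hc⟩ := hugg g
    exact ⟨c, funext hc⟩
  have hu0 : u ≠ 0 := by
    intro h
    have h1 := huu σ₀
    rw [h] at h1
    simp at h1
  have hB : ∀ (g : GQ) (σ τ : E →+* Qb),
      form f (act g σ) (act g τ) * (u (act g σ) * u (act g τ)) = form f σ τ * (u σ * u τ) := by
    intro g σ τ
    obtain ⟨c, hc1, hc⟩ := hugg g
    rw [form_act, hc, hc]
    linear_combination (form f σ τ * (u σ * u τ)) * hc1
  have hBs : ∀ {σ σ' τ τ' : E →+* Qb}, Same σ σ' → Same τ τ' →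
      form f σ τ * (u σ * u τ) = form f σ' τ' * (u σ' * u τ') := by
    have hcj2 : ∀ σ τ : E →+* Qb, form f σ (cj τ) = - form f σ τ := by
      intro σ τ
      rw [form_comm, form_cj hf.1, form_comm]
    have huc : ∀ σ, u (cj σ) = - u σ := hodd
    intro σ σ' τ τ' h h'
    rcases h with h | h <;> rcases h' with h' | h'
    · rw [h, h']
    · have h2 : τ = cj τ' := h'
      rw [h, h2, hcj2, huc]
      ring
    · have h1 : σ = cj σ' := h
      rw [h', h1, form_cj hf.1, huc]
      ring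
    · have h1 : σ = cj σ' := h
      have h2 : τ = cj τ' := h'
      rw [h1, h2, form_cj hf.1, hcj2, huc, huc]
      ring
  -- the value outside the diagonal
  obtain ⟨b, hb⟩ : ∃ b : ℚ, ∀ σ τ : E →+* Qb, Apart σ τ → form f σ τ * (u σ * u τ) = b := by
    by_cases h : ∃ σ τ : E →+* Qb, Apart σ τ
    · obtain ⟨σ₁, τ₁, h₁⟩ := h
      refine ⟨form f σ₁ τ₁ * (u σ₁ * u τ₁), fun σ τ hστ => ?_⟩
      obtain ⟨g, h2, h3⟩ := hE σ τ σ₁ τ₁ hστ h₁
      rw [← hB g σ τ]
      exact hBs h2 h3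
    · push Not at h
      exact ⟨0, fun σ τ hστ => absurd hστ (h σ τ)⟩
  set a : ℚ := form f σ₀ σ₀ with ha
  have hapos : 0 < a := form_pos hf0 σ₀
  have hdiag : ∀ σ, form f σ σ = a := by
    intro σ
    obtain ⟨g, rfl⟩ := exists_act_eq σ₀ σ
    rw [form_act]
  -- the rows
  have hrow : ∀ τ : E →+* Qb, (fun σ => form f σ τ) = (b * u τ) • u + (a - b) • dl τ := by
    intro τ
    funext σ
    rw [Pi.add_apply, Pi.smul_apply, Pi.smul_apply, smul_eq_mul, smul_eq_mul, dl_apply]
    by_cases h1 : σ = τ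
    · subst h1
      rw [if_pos rfl, if_neg (cj_ne σ).symm, hdiag]
      linear_combination (-b) * huu σ
    · by_cases h2 : σ = cj τ
      · subst h2
        have h3 : u (cj τ) = - u τ := hodd τ
        rw [if_neg h1, if_pos rfl, form_cj hf.1, hdiag, h3]
        linear_combination b * huu τ
      · rw [if_neg h1, if_neg h2]
        have h3 := hb σ τ ⟨h1, h2⟩
        have h4 : form f σ τ = form f σ τ * (u σ * u τ) * (u σ * u τ) := by
          linear_combination -(form f σ τ) * ((u τ * u τ) * huu σ + huu τ)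
        rw [h4, h3]
        ring
  have hmem : ∀ τ : E →+* Qb, (b * u τ) • u + (a - b) • dl τ ∈ rels ι α := by
    intro τ
    rw [← hrow]
    exact form_mem (rels_stable (ι := ι) (α := α)) hf τ
  by_cases hab : a = b
  · have h1 := hmem σ₀
    rw [hab, sub_self, zero_smul, add_zero] at h1
    have h2 : b * u σ₀ ≠ 0 := by
      apply mul_ne_zero
      · rw [← hab]; exact hapos.ne'
      · intro h3
        have h4 := huu σ₀
        rw [h3] at h4
        norm_num at h4
    have h3 : u ∈ rels ι α := (Submodule.smul_mem_iff _ h2).1 h1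
    exact no_line hu hq h3.1 h3.2 hu0 hline
  · obtain ⟨σ, τ, hστ, hne'⟩ := hs x d hd hx
    apply hne'
    apply norm_eq_of_dl hu
    have h1 := Submodule.sub_mem _ (hmem σ) (hmem τ)
    have h2 : u σ = u τ := by
      rcases hu1 σ with ⟨h3, h4⟩ | ⟨h3, h4⟩ <;> rcases hu1 τ with ⟨h5, h6⟩ | ⟨h5, h6⟩ <;>
        rw [h4, h6]
      · rw [hστ, h5] at h3
        exact absurd h3.symm hs1
      · rw [hστ, h5] at h3
        exact absurd h3 hs1
    have h3 : (b * u σ) • u + (a - b) • dl σ - ((b * u τ) • u + (a - b) • dl τ) =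
        (a - b) • (dl σ - dl τ) := by
      rw [h2, smul_sub]
      abel
    rw [h3] at h1
    exact (Submodule.smul_mem_iff _ (sub_ne_zero.2 hab)).1 h1

end Pool.Agent.NH33.Pq
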