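import Pool.Agent.NH33.Ir.GeoDefs

/-!
# Numbers with slopes of the same parity except at few pairs of embeddings: definitions
-/

set_option autoImplicit false

open NumberField

namespace Pool.Agent.NH33.Pq

open Pool.Agent.NH33.Ir

/-- The maximal real subfield of `E` has no proper subfield other than `ℚ`. -/
def HasPrimitiveRealSubfield (E : Type) [Field E] [NumberField E] : Prop :=
  ∀ F : Subfield E, F < maximalRealSubfield E → F = ⊥

/-- The slopes of the conjugates of `α` at the place `ι` are, after multiplication by a constant,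
integers `n σ` of the same parity except at one or two pairs of complex conjugate embeddings
(`σ = a`, `σ = b` or conjugate to these; the parity of `ε` is the parity of the other ones). In the
case of two pairs `E` has degree at least six and its maximal real subfield has no proper subfield
other than `ℚ`. -/
def HasFewExceptions {p : ℕ} [Fact p.Prime] (ι : AlgebraicClosure ℚ →+* PadicAlgCl p)
    {E : Type} [Field E] [NumberField E] [IsCMField E] (α : E) : Prop :=
  ∃ (κ : ℝ) (n : (E →+* AlgebraicClosure ℚ) → ℤ) (ε : ℤ) (a b : E →+* AlgebraicClosure ℚ),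
    (∀ σ, (n σ : ℝ) = κ * Real.log ‖ι (σ α)‖) ∧
    (∀ σ, Odd (n σ + ε) ↔ (Same σ a ∨ Same σ b)) ∧
    (a = b ∨ (Apart a b ∧ 6 ≤ Module.finrank ℚ E ∧ HasPrimitiveRealSubfield E))

open Classical in
/-- The norm of `α` to an imaginary quadratic subfield `ℚ(x)` of `E` is not a unit at all places over
`ι`: the product of the absolute values of the conjugates of `α` over some conjugate `s` of `x` is
not one. -/
def NoQuadraticNormRelation {p : ℕ} [Fact p.Prime] (ι : AlgebraicClosure ℚ →+* PadicAlgCl p)
    {E : Type} [Field E] [NumberField E] (α : E) : Prop :=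
  ∀ (x : E) (d : ℚ), d < 0 → x ^ 2 = (d : E) →
    ∃ s : AlgebraicClosure ℚ,
      (∏ σ : {σ : E →+* AlgebraicClosure ℚ // σ x = s}, ‖ι (σ.1 α)‖) ≠ 1

/-- The absolute values of the conjugates of `α` over `ι` are not determined by an imaginary
quadratic subfield of `E`. -/
def SlopesNotQuadratic {p : ℕ} [Fact p.Prime] (ι : AlgebraicClosure ℚ →+* PadicAlgCl p)
    {E : Type} [Field E] [NumberField E] (α : E) : Prop :=
  ∀ (x : E) (d : ℚ), d < 0 → x ^ 2 = (d : E) →
    ∃ σ τ : E →+* AlgebraicClosure ℚ, σ x = τ x ∧ ‖ι (σ α)‖ ≠ ‖ι (τ α)‖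

/-- The Galois group acts doubly transitively on the pairs of complex conjugate embeddings. -/
def IsDoublyTransitive (E : Type) [Field E] [NumberField E] [IsCMField E] : Prop :=
  ∀ σ₁ σ₂ τ₁ τ₂ : E →+* AlgebraicClosure ℚ, Apart σ₁ σ₂ → Apart τ₁ τ₂ →
    ∃ g : AlgebraicClosure ℚ ≃ₐ[ℚ] AlgebraicClosure ℚ,
      Same ((g : AlgebraicClosure ℚ →+* AlgebraicClosure ℚ).comp σ₁) τ₁ ∧
      Same ((g : AlgebraicClosure ℚ →+* AlgebraicClosure ℚ).comp σ₂) τ₂

/-- A CM type: it contains exactly one embedding from each pair of complex conjugate embeddings. -/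
def IsCMType {E : Type} [Field E] [NumberField E] [IsCMField E]
    (T : Finset (E →+* AlgebraicClosure ℚ)) : Prop :=
  ∀ σ, σ ∈ T ↔ σ.comp (IsCMField.complexConj E : E →+* E) ∉ T

/-- The CM type is *special*: the embeddings in `T` agree on the imaginary quadratic subfields, and
the automorphisms which map `T` to itself act transitively on `T`. -/
def IsSpecial {E : Type} [Field E] [NumberField E] [IsCMField E]
    (T : Finset (E →+* AlgebraicClosure ℚ)) : Prop :=
  (∀ (x : E) (d : ℚ), d < 0 → x ^ 2 = (d : E) → ∀ σ ∈ T, ∀ τ ∈ T, σ x = τ x) ∧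
    ∀ σ ∈ T, ∀ τ ∈ T, ∃ g : AlgebraicClosure ℚ ≃ₐ[ℚ] AlgebraicClosure ℚ,
      (g : AlgebraicClosure ℚ →+* AlgebraicClosure ℚ).comp σ = τ ∧
      ∀ ρ ∈ T, (g : AlgebraicClosure ℚ →+* AlgebraicClosure ℚ).comp ρ ∈ T

/-- The degree of `E` is `2 ℓ ^ m` for a prime number `ℓ`, the slopes of the conjugates of `α` at the
place `ι` are, after multiplication by a constant, integers `n σ`, and for each CM type `T` (if `ℓ` is
odd: for each special CM type `T`) there is an automorphism `g` such that the sum of `n (g σ)` over
the `σ` in `T` is not divisible by `ℓ`. (If `ℓ = 2` the condition says that the number of pairs of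
conjugate embeddings with odd `n σ` is odd. If `ℓ` is odd and `E` contains an imaginary quadratic
field `K` it says that the normalised slope of the norm of `α` to `K` is not divisible by `ℓ`.) -/
def HasPrimePowerType {p : ℕ} [Fact p.Prime] (ι : AlgebraicClosure ℚ →+* PadicAlgCl p)
    {E : Type} [Field E] [NumberField E] [IsCMField E] (α : E) : Prop :=
  ∃ (ℓ m : ℕ) (κ : ℝ) (n : (E →+* AlgebraicClosure ℚ) → ℤ), ℓ.Prime ∧
    Module.finrank ℚ E = 2 * ℓ ^ m ∧ (∀ σ, (n σ : ℝ) = κ * Real.log ‖ι (σ α)‖) ∧
    ∀ T : Finset (E →+* AlgebraicClosure ℚ), IsCMType T → (ℓ = 2 ∨ IsSpecial T) →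
      ∃ g : AlgebraicClosure ℚ ≃ₐ[ℚ] AlgebraicClosure ℚ,
        ¬ (ℓ : ℤ) ∣ ∑ σ ∈ T, n ((g : AlgebraicClosure ℚ →+* AlgebraicClosure ℚ).comp σ)

/-- One of four conditions holds.

* The degree of `E` is `2 ℓ ^ m` for a prime number `ℓ` and a sum of normalised slopes is not
  divisible by `ℓ`.
* There is no norm relation over an imaginary quadratic subfield, and the normalised slopes have the
  same parity except at one pair of conjugate embeddings, or (`E` of degree at least six, with a
  primitive maximal real subfield) at two pairs.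
* The degree of `E` is `2 ℓ` for a prime number `ℓ`, some conjugate of `α` is not a unit at `ι`, there
  is no norm relation over an imaginary quadratic subfield and the slopes are not determined by an
  imaginary quadratic subfield.
* The field `E` contains an imaginary quadratic field, its Galois group is doubly transitive on the
  pairs of conjugate embeddings, there is no norm relation over an imaginary quadratic subfield and
  the slopes are not determined by an imaginary quadratic subfield. -/
def IsRegularAt {p : ℕ} [Fact p.Prime] (ι : AlgebraicClosure ℚ →+* PadicAlgCl p)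
    {E : Type} [Field E] [NumberField E] [IsCMField E] (α : E) : Prop :=
  HasPrimePowerType ι α ∨
    (NoQuadraticNormRelation ι α ∧
      (HasFewExceptions ι α ∨
        (SlopesNotQuadratic ι α ∧
          (((∃ ℓ : ℕ, ℓ.Prime ∧ Module.finrank ℚ E = 2 * ℓ) ∧
              ∃ σ : E →+* AlgebraicClosure ℚ, ‖ι (σ α)‖ ≠ 1) ∨
            (IsDoublyTransitive E ∧ ¬ NoImaginaryQuadratic E)))))

end Pool.Agent.NH33.Pq
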