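import Pool.Agent.NH33.Pq.Par
import Pool.Agent.NH33.Pq.Dbl

/-!
# Fields of degree twice a power of a prime number
-/

set_option autoImplicit false
set_option linter.unusedSectionVars false

namespace Pool.Agent.NH33.Pq

open NumberField Polynomial Module Pool.Agent.TH121.KT Pool.Agent.Y103.Hk Pool.Agent.Y103.Sh
  Pool.Agent.NH33.Ir

/-- a nonzero rational function has an integral multiple with a value which is not divisible by a
given number -/
theorem exists_multiple {ℓ : ℕ} (hℓ : 1 < ℓ) {X : Type*} [Fintype X] {f : X → ℚ} (hf : f ≠ 0) :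
    ∃ (c : ℚ) (m : X → ℤ), (∀ x, (m x : ℚ) = c * f x) ∧ ∃ x, ¬ (ℓ : ℤ) ∣ m x := by
  classical
  obtain ⟨N, hN⟩ := IsLocalization.exist_integer_multiples_of_finset (nonZeroDivisors ℤ)
    (Finset.univ.image f)
  have hN0 : ((N : ℤ) : ℚ) ≠ 0 := by
    have := nonZeroDivisors.ne_zero N.2
    exact_mod_cast this
  have hex : ∀ x, ∃ m : ℤ, (m : ℚ) = (N : ℤ) * f x := by
    intro x
    obtain ⟨m, hm⟩ := hN (f x) (Finset.mem_image_of_mem f (Finset.mem_univ x))
    refine ⟨m, ?_⟩
    rw [Algebra.smul_def] at hm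
    simpa using hm
  choose m hm using hex
  -- divide by the powers of the number
  have key : ∀ (k : ℕ) (c : ℚ) (m : X → ℤ), (∀ x, (m x : ℚ) = c * f x) → (∃ x, m x ≠ 0) →
      (∑ x, (m x).natAbs ≤ k) →
      ∃ (c : ℚ) (m : X → ℤ), (∀ x, (m x : ℚ) = c * f x) ∧ ∃ x, ¬ (ℓ : ℤ) ∣ m x := by
    intro k
    induction k with
    | zero =>
      intro c m h1 h2 h3
      exfalso
      obtain ⟨x, hx⟩ := h2
      have h4 : ∑ x, (m x).natAbs = 0 := Nat.le_zero.1 h3
      rw [Finset.sum_eq_zero_iff] at h4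
      exact hx (Int.natAbs_eq_zero.1 (h4 x (Finset.mem_univ x)))
    | succ k ih =>
      intro c m h1 h2 h3
      by_cases h4 : ∃ x, ¬ (ℓ : ℤ) ∣ m x
      · exact ⟨c, m, h1, h4⟩
      · push Not at h4
        choose a ha using h4
        have hℓ0 : (ℓ : ℚ) ≠ 0 := by
          have : ℓ ≠ 0 := by omega
          exact_mod_cast this
        obtain ⟨x, hx⟩ := h2
        have hax : a x ≠ 0 := by
          intro h6
          apply hx
          rw [ha x, h6, mul_zero]
        refine ih (c / ℓ) a (fun x => ?_) ⟨x, hax⟩ ?_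
        · have h6 := h1 x
          rw [ha x] at h6
          push_cast at h6
          field_simp
          linarith
        · have h6 : ∑ x, (m x).natAbs = ℓ * ∑ x, (a x).natAbs := by
            rw [Finset.mul_sum]
            refine Finset.sum_congr rfl fun x _ => ?_
            rw [ha x, Int.natAbs_mul]
            rfl
          have h7 : 0 < ∑ x, (a x).natAbs := by
            refine Finset.sum_pos' (fun _ _ => Nat.zero_le _) ⟨x, Finset.mem_univ _, ?_⟩
            exact Int.natAbs_pos.2 hax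
          nlinarith
  refine key _ _ m hm ?_ le_rfl
  by_contra hcon
  push Not at hcon
  apply hf
  funext x
  have h1 := hm x
  rw [hcon x, Int.cast_zero] at h1
  exact (mul_eq_zero.1 h1.symm).resolve_left hN0

/-- the orbits of Sylow subgroups -/
theorem orbit_card {G X : Type*} [Group G] [Finite G] [MulAction G X] {ℓ : ℕ} [Fact ℓ.Prime]
    (Q : Sylow ℓ G) (x : X) {k : ℕ} (hk : ℓ ^ k ∣ Nat.card (MulAction.orbit G x)) :
    ℓ ^ k ∣ Nat.card (MulAction.orbit Q x) := by
  have h1 : Nat.card (MulAction.orbit G x) * Nat.card (MulAction.stabilizer G x) = Nat.card G := by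
    rw [← Nat.card_prod]
    exact Nat.card_congr (MulAction.orbitProdStabilizerEquivGroup G x)
  have h2 : Nat.card (MulAction.orbit Q x) * Nat.card (MulAction.stabilizer Q x) = Nat.card Q := by
    rw [← Nat.card_prod]
    exact Nat.card_congr (MulAction.orbitProdStabilizerEquivGroup Q x)
  obtain ⟨a, ha⟩ : ∃ a, Nat.card (MulAction.stabilizer Q x) = ℓ ^ a :=
    IsPGroup.iff_card.1 (Q.isPGroup'.to_subgroup _)
  have h3 : ℓ ^ a ∣ Nat.card (MulAction.stabilizer G x) := by
    rw [← ha]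
    let φ : MulAction.stabilizer Q x →* MulAction.stabilizer G x :=
      { toFun := fun q => ⟨(q.1 : G), q.2⟩
        map_one' := rfl
        map_mul' := fun _ _ => rfl }
    refine Subgroup.card_dvd_of_injective φ fun q q' h => ?_
    have h4 : (q.1 : G) = (q'.1 : G) := congrArg (fun z : MulAction.stabilizer G x => z.1) h
    exact Subtype.ext (Subtype.ext h4)
  have h4 : ℓ ^ (k + a) ∣ Nat.card G := by
    rw [← h1, pow_add]
    exact mul_dvd_mul hk h3
  have h5 : ℓ ^ (k + a) ∣ Nat.card Q := Q.pow_dvd_card_of_pow_dvd_card h4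
  rw [← h2, ha, pow_add] at h5
  exact Nat.dvd_of_mul_dvd_mul_right (pow_pos (Fact.out : ℓ.Prime).pos a) h5

variable {E : Type} [Field E] [NumberField E] [IsCMField E]

lemma isCMType_iff {T : Finset (E →+* Qb)} : IsCMType T ↔ ∀ σ, (σ ∈ T ↔ cj σ ∉ T) := Iff.rfl

/-- the relations modulo `ℓ` -/
def modRels (ℓ : ℕ) (n : (E →+* Qb) → ℤ) : AddSubgroup ((E →+* Qb) → ZMod ℓ) where
  carrier := {x | (∀ σ, x (cj σ) = - x σ) ∧ ∀ T : Finset (E →+* Qb), IsCMType T → ∀ g : GQ,
    ∑ σ ∈ T, x σ * (n (act g σ) : ZMod ℓ) = 0}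
  add_mem' := by
    rintro a b ⟨ha, ha'⟩ ⟨hb, hb'⟩
    refine ⟨fun σ => ?_, fun T hT g => ?_⟩
    · rw [Pi.add_apply, Pi.add_apply, ha, hb]
      ring
    · simp only [Pi.add_apply, add_mul, Finset.sum_add_distrib]
      rw [ha' T hT, hb' T hT, add_zero]
  zero_mem' := ⟨fun σ => by simp, fun T hT g => by simp⟩
  neg_mem' := by
    rintro a ⟨ha, ha'⟩
    refine ⟨fun σ => ?_, fun T hT g => ?_⟩
    · rw [Pi.neg_apply, Pi.neg_apply, ha]
    · simp only [Pi.neg_apply, neg_mul, Finset.sum_neg_distrib]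
      rw [ha' T hT, neg_zero]

lemma modRels_stable {ℓ : ℕ} {n : (E →+* Qb) → ℤ} (h : GQ) {x : (E →+* Qb) → ZMod ℓ}
    (hx : x ∈ modRels ℓ n) : (fun σ => x (act h σ)) ∈ modRels ℓ n := by
  classical
  refine ⟨fun σ => ?_, fun T hT g => ?_⟩
  · change x (act h (cj σ)) = - x (act h σ)
    rw [act_cj, hx.1]
  · have hinj : Function.Injective (act h : (E →+* Qb) → (E →+* Qb)) := fun a b hab => by
      rw [← act_inv_act h a, hab, act_inv_act]
    have hmem : ∀ σ, σ ∈ T.image (act h) ↔ act h⁻¹ σ ∈ T := by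
      intro σ
      rw [Finset.mem_image]
      constructor
      · rintro ⟨τ, hτ, rfl⟩
        rwa [act_inv_act]
      · intro h1
        exact ⟨_, h1, act_act_inv h σ⟩
    have h1 := hx.2 (T.image (act h)) (isCMType_iff.2 fun σ => by
      rw [hmem, hmem, act_cj]
      exact isCMType_iff.1 hT _) (g * h⁻¹)
    rw [Finset.sum_image fun a _ b _ hab => hinj hab] at h1
    rw [← h1]
    refine Finset.sum_congr rfl fun σ _ => ?_
    rw [act_mul, act_inv_act]

/-- the action of the group on the relations -/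
@[instance_reducible]
noncomputable def actRels {ℓ : ℕ} (n : (E →+* Qb) → ℤ) (Q : Subgroup (rho E).range) :
    MulAction Q (modRels ℓ n) where
  smul q x := ⟨fun σ => x.1 ((q⁻¹).1.1 σ), by
    obtain ⟨g, hg⟩ := (q⁻¹).1.2
    rw [← hg]
    exact modRels_stable g x.2⟩
  one_smul x := by
    apply Subtype.ext
    funext σ
    change x.1 (((1 : Q)⁻¹).1.1 σ) = x.1 σ
    rw [inv_one]
    rfl
  mul_smul q q' x := by
    apply Subtype.ext
    funext σ
    change x.1 (((q * q')⁻¹).1.1 σ) = x.1 ((q'⁻¹).1.1 ((q⁻¹).1.1 σ))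
    rw [mul_inv_rev]
    rfl

variable {p : ℕ} [Fact p.Prime] {ι : Qb →+* PadicAlgCl p} {α : E}

/-- **Degree twice a power of a prime number**: there are no relations. -/
theorem free_of_primePower (hu : ∀ φ : E →+* ℂ, ‖φ α‖ = 1) (h : HasPrimePowerType ι α) :
    Free ι α := by
  classical
  obtain ⟨ℓ, m, κ, n, hℓ, hE, hn, hT⟩ := h
  have : Fact ℓ.Prime := ⟨hℓ⟩
  have : NeZero ℓ := ⟨hℓ.ne_zero⟩
  intro f hf hL
  by_contra hf0
  obtain ⟨c, k, hk, τ₀, hτ₀⟩ := exists_multiple hℓ.one_lt hf0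
  have hkodd : ∀ σ, k (cj σ) = - k σ := by
    intro σ
    have h1 := hk (cj σ)
    have h2 : f (cj σ) = - f σ := hf σ
    rw [h2] at h1
    have h3 : (k (cj σ) : ℚ) = ((- k σ : ℤ) : ℚ) := by
      rw [h1, Int.cast_neg, hk]
      ring
    exact_mod_cast h3
  have hnodd : ∀ σ, n (cj σ) = - n σ := by
    intro σ
    have h1 := hn (cj σ)
    rw [cj_norm hu, Real.log_inv] at h1
    have h2 := hn σ
    have h3 : (n (cj σ) : ℝ) = ((- n σ : ℤ) : ℝ) := by
      rw [h1, Int.cast_neg, h2]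
      ring
    exact_mod_cast h3
  have hrel : ∀ g : GQ, ∑ σ, k σ * n (act g σ) = 0 := by
    intro g
    have h1 : ((∑ σ, k σ * n (act g σ) : ℤ) : ℝ) = c * κ * Lg ι α f g := by
      unfold Lg
      push_cast
      rw [Finset.mul_sum]
      refine Finset.sum_congr rfl fun σ _ => ?_
      have h2 : (k σ : ℝ) = (c : ℝ) * (f σ : ℝ) := by
        have := congrArg (fun x : ℚ => (x : ℝ)) (hk σ)
        push_cast at this
        exact this
      rw [h2, hn]
      change (c : ℝ) * (f σ : ℝ) * (κ * Real.log ‖ι (g (σ α))‖) = _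
      ring
    rw [hL, mul_zero] at h1
    exact_mod_cast h1
  -- the relation modulo `ℓ`
  let x₀ : modRels ℓ n := ⟨fun σ => (k σ : ZMod ℓ), fun σ => by
    change (k (cj σ) : ZMod ℓ) = - (k σ : ZMod ℓ)
    rw [hkodd, Int.cast_neg], fun T hT' g => by
      have h1 := hrel g
      rw [sum_half (isCMType_iff.1 hT') fun σ => by rw [hkodd, act_cj, hnodd]; ring] at h1
      have h2 : ∑ σ ∈ T, k σ * n (act g σ) = 0 := by omega
      have h3 := congrArg (fun z : ℤ => (z : ZMod ℓ)) h2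
      simp only [Int.cast_sum, Int.cast_mul, Int.cast_zero] at h3
      exact h3⟩
  have hx₀ : x₀ ≠ 0 := by
    intro h1
    have h2 : (k τ₀ : ZMod ℓ) = 0 := congrFun (congrArg Subtype.val h1) τ₀
    rw [ZMod.intCast_zmod_eq_zero_iff_dvd] at h2
    exact hτ₀ h2
  -- a fixed relation
  obtain ⟨Q⟩ : Nonempty (Sylow ℓ (rho E).range) := inferInstance
  let : MulAction Q (modRels ℓ n) := actRels n (Q : Subgroup (rho E).range)
  have hcard : ℓ ∣ Nat.card (modRels ℓ n) := by
    have h1 : addOrderOf x₀ = ℓ := by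
      refine addOrderOf_eq_prime ?_ hx₀
      apply Subtype.ext
      funext σ
      change ℓ • (k σ : ZMod ℓ) = 0
      rw [nsmul_eq_mul, CharP.cast_eq_zero, zero_mul]
    have h2 := addOrderOf_dvd_natCard x₀
    rw [h1] at h2
    exact h2
  obtain ⟨y, hy, hy0⟩ := Q.isPGroup'.exists_fixed_point_of_prime_dvd_card_of_fixed_point
    (modRels ℓ n) hcard (a := 0) (fun q => by
      apply Subtype.ext
      rfl)
  have hfix : ∀ (q : Q) (σ : E →+* Qb), y.1 (q.1.1 σ) = y.1 σ := by
    intro q σ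
    have h1 := hy q⁻¹
    have h2 := congrFun (congrArg Subtype.val h1) σ
    change y.1 ((q⁻¹⁻¹).1.1 σ) = y.1 σ at h2
    rwa [inv_inv] at h2
  obtain ⟨σ₀, hσ₀⟩ : ∃ σ, y.1 σ ≠ 0 := by
    by_contra hcon
    push Not at hcon
    exact hy0 (Subtype.ext (funext fun σ => (hcon σ).symm))
  have horb : MulAction.orbit (rho E).range σ₀ = Set.univ := by
    ext τ
    simp only [Set.mem_univ, iff_true]
    obtain ⟨g, hg⟩ := exists_act_eq σ₀ τ
    exact ⟨⟨rho E g, g, rfl⟩, hg⟩
  have hX : Fintype.card (E →+* Qb) = 2 * ℓ ^ m := by rw [Embeddings.card, hE]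
  have hcX : Nat.card (MulAction.orbit (rho E).range σ₀) = 2 * ℓ ^ m := by
    rw [horb, Nat.card_congr (Equiv.Set.univ _), Nat.card_eq_fintype_card, hX]
  -- the orbit
  let O : Finset (E →+* Qb) := Finset.univ.filter fun τ => ∃ q : Q, q.1.1 σ₀ = τ
  have hO : ∀ τ, τ ∈ O ↔ ∃ q : Q, q.1.1 σ₀ = τ := by
    intro τ
    simp [O]
  have hOcard : Nat.card (MulAction.orbit Q σ₀) = O.card := by
    have h1 : MulAction.orbit Q σ₀ = (O : Set (E →+* Qb)) := by
      ext τ
      rw [Finset.mem_coe, hO]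
      exact Iff.rfl
    rw [Nat.card_coe_set_eq, h1, Set.ncard_coe_finset]
  have hσO : σ₀ ∈ O := (hO σ₀).2 ⟨1, rfl⟩
  have hyO : ∀ τ ∈ O, y.1 τ = y.1 σ₀ := by
    intro τ hτ
    obtain ⟨q, rfl⟩ := (hO τ).1 hτ
    exact hfix q σ₀
  -- the contradiction
  have hfin : ∀ T : Finset (E →+* Qb), IsCMType T → (ℓ = 2 ∨ IsSpecial T) →
      (∀ σ ∈ T, y.1 σ = y.1 σ₀) → False := by
    intro T h1 h2 h3
    obtain ⟨g, hg⟩ := hT T h1 h2
    apply hg
    have h4 := y.2.2 T h1 g
    rw [Finset.sum_congr rfl fun σ hσ => by rw [h3 σ hσ], ← Finset.mul_sum] at h4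
    have h5 := (mul_eq_zero.1 h4).resolve_left hσ₀
    rw [← ZMod.intCast_zmod_eq_zero_iff_dvd, Int.cast_sum]
    exact h5
  by_cases h2 : ℓ = 2
  · have h3 : ℓ ^ (m + 1) ∣ O.card := by
      rw [← hOcard]
      exact orbit_card Q σ₀ (k := m + 1) (by rw [hcX, pow_succ, mul_comm, h2])
    rw [h2] at h3
    have h4 : 2 ^ (m + 1) ≤ O.card := Nat.le_of_dvd (Finset.card_pos.2 ⟨σ₀, hσO⟩) h3
    have h5 : O = Finset.univ := by
      refine Finset.eq_univ_of_card _ (le_antisymm (Finset.card_le_univ _) ?_)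
      rw [hX, h2, mul_comm, ← pow_succ]
      exact h4
    obtain ⟨T, hT'⟩ := exists_half (E := E)
    exact hfin T hT' (Or.inl h2) fun σ _ => hyO σ (by rw [h5]; exact Finset.mem_univ σ)
  · have h3 : ℓ ^ m ≤ O.card := by
      refine Nat.le_of_dvd (Finset.card_pos.2 ⟨σ₀, hσO⟩) ?_
      rw [← hOcard]
      exact orbit_card Q σ₀ (k := m) (by rw [hcX]; exact Dvd.intro_left 2 rfl)
    -- the elements have odd order
    have hrep : ∀ q : Q, ∃ g : GQ, (∀ σ, act g σ = q.1.1 σ) ∧
        ∃ i : ℕ, ∀ σ : E →+* Qb, act (g ^ (2 * i + 1)) σ = σ := by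
      intro q
      obtain ⟨g, hg⟩ := q.1.2
      obtain ⟨j, hj⟩ := Q.isPGroup' q
      obtain ⟨i, hi⟩ : Odd (ℓ ^ j) := (hℓ.odd_of_ne_two h2).pow
      refine ⟨g, fun σ => by rw [← hg]; rfl, i, fun σ => ?_⟩
      have h4 : (rho E) (g ^ (2 * i + 1)) = 1 := by
        rw [map_pow, hg, ← hi]
        have h5 := congrArg (fun z : Q => z.1.1) hj
        exact h5
      have h5 := DFunLike.congr_fun h4 σ
      exact h5
    have hrel2 : ∀ σ ∈ O, ∀ τ ∈ O, ∃ g : GQ, act g σ = τ ∧ (∀ ρ ∈ O, act g ρ ∈ O) ∧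
        ∃ i : ℕ, ∀ σ : E →+* Qb, act (g ^ (2 * i + 1)) σ = σ := by
      intro σ hσ τ hτ
      obtain ⟨q, rfl⟩ := (hO σ).1 hσ
      obtain ⟨q', rfl⟩ := (hO τ).1 hτ
      obtain ⟨g, hg, i, hi⟩ := hrep (q' * q⁻¹)
      refine ⟨g, ?_, fun ρ hρ => ?_, i, hi⟩
      · rw [hg]
        have h4 : (q.1.1)⁻¹ (q.1.1 σ₀) = σ₀ := q.1.1.symm_apply_apply σ₀
        change q'.1.1 ((q.1.1)⁻¹ (q.1.1 σ₀)) = q'.1.1 σ₀
        rw [h4]
      · obtain ⟨q'', rfl⟩ := (hO ρ).1 hρ
        rw [hg]
        exact (hO _).2 ⟨q' * q⁻¹ * q'', rfl⟩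
    have hdisj : ∀ τ ∈ O, cj τ ∉ O := by
      intro τ hτ hcτ
      obtain ⟨g, hg, -, i, hi⟩ := hrel2 τ hτ _ hcτ
      have h4 : ∀ i : ℕ, act (g ^ (2 * i + 1)) τ = cj τ := by
        intro i
        induction i with
        | zero => rw [mul_zero, zero_add, pow_one, hg]
        | succ i ih =>
          have h5 : g ^ (2 * (i + 1) + 1) = g ^ (2 * i + 1) * (g * g) := by
            rw [← sq, ← pow_add]
            ring_nf
          rw [h5, act_mul, act_mul, hg, act_cj, hg, cj_cj, ih]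
      exact cj_ne τ ((h4 i).symm.trans (hi τ))
    have huniv : O ∪ O.image cj = Finset.univ := by
      refine Finset.eq_univ_of_card _ (le_antisymm (Finset.card_le_univ _) ?_)
      rw [hX, Finset.card_union_of_disjoint, Finset.card_image_of_injective]
      · omega
      · intro a b hab
        rw [← cj_cj a, hab, cj_cj]
      · rw [Finset.disjoint_left]
        intro τ hτ h4
        obtain ⟨ρ, hρ, rfl⟩ := Finset.mem_image.1 h4
        exact hdisj ρ hρ hτ
    have hOT : IsCMType O := by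
      rw [isCMType_iff]
      intro σ
      refine ⟨hdisj σ, fun h4 => ?_⟩
      have h5 : σ ∈ O ∪ O.image cj := by rw [huniv]; exact Finset.mem_univ σ
      rcases Finset.mem_union.1 h5 with h6 | h6
      · exact h6
      · obtain ⟨ρ, hρ, rfl⟩ := Finset.mem_image.1 h6
        rw [cj_cj] at h4
        exact absurd hρ h4
    refine hfin O hOT (Or.inr ⟨fun x d hd hx σ hσ τ hτ => ?_, fun σ hσ τ hτ => ?_⟩) hyO
    · obtain ⟨g, hg, -, i, hi⟩ := hrel2 σ hσ τ hτ
      rcases quadratic_pm hx τ σ with h4 | h4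
      · exact h4.symm
      · exfalso
        have h5 : g (σ x) = - σ x := by
          rw [← h4, ← hg]
          rfl
        have h6 : ∀ i : ℕ, (g ^ (2 * i + 1)) (σ x) = - σ x := by
          intro i
          induction i with
          | zero => rw [mul_zero, zero_add, pow_one, h5]
          | succ i ih =>
            have h7 : g ^ (2 * (i + 1) + 1) = g ^ (2 * i + 1) * (g * g) := by
              rw [← sq, ← pow_add]
              ring_nf
            rw [h7, AlgEquiv.mul_apply, AlgEquiv.mul_apply, h5, map_neg, h5, neg_neg, ih]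
        have h7 : (g ^ (2 * i + 1)) (σ x) = σ x := RingHom.congr_fun (hi σ) x
        rw [h6 i] at h7
        have h8 : σ x = 0 := by
          have := self_eq_neg.1 h7.symm
          exact this
        exact (map_ne_zero σ).2 (quadratic_ne_zero hd hx) h8
    · obtain ⟨g, hg, hg', -⟩ := hrel2 σ hσ τ hτ
      exact ⟨g, hg, hg'⟩

end Pool.Agent.NH33.Pq
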