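import Pool.Agent.NH33.Pq.Par
import Pool.Agent.NH33.Pq.Power

/-!
# Numbers with few exceptional slopes have no relations between their conjugates
-/

set_option autoImplicit false
set_option linter.unusedSectionVars false

namespace Pool.Agent.NH33.Pq

open NumberField Polynomial Module Pool.Agent.TH121.KT Pool.Agent.Y103.Hk Pool.Agent.Y103.Sh
  Pool.Agent.NH33.Ir

/-- a nonzero rational function has an integral multiple with an odd value -/
theorem exists_odd_multiple {X : Type*} [Fintype X] {f : X → ℚ} (hf : f ≠ 0) :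
    ∃ (c : ℚ) (m : X → ℤ), (∀ x, (m x : ℚ) = c * f x) ∧ ∃ x, Odd (m x) := by
  obtain ⟨c, m, h1, x, h2⟩ := exists_multiple (ℓ := 2) one_lt_two hf
  refine ⟨c, m, h1, x, ?_⟩
  rw [← Int.not_even_iff_odd, even_iff_two_dvd]
  exact_mod_cast h2

variable {p : ℕ} [Fact p.Prime] {ι : Qb →+* PadicAlgCl p} {E : Type} [Field E] [NumberField E]
  [IsCMField E] {α : E}

/-- the values of a relation are not zero -/
theorem value_ne_zero (hu : ∀ φ : E →+* ℂ, ‖φ α‖ = 1) (hα : HasFewExceptions ι α)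
    {f : (E →+* Qb) → ℚ} (hf : IsOddFun f) (hL : ∀ g, Lg ι α f g = 0) (hf0 : f ≠ 0)
    (σ : E →+* Qb) : f σ ≠ 0 := by
  obtain ⟨κ, n, ε, a, b, hn, hpar, hab⟩ := hα
  obtain ⟨c, m, hm, τ, hτ⟩ := exists_odd_multiple hf0
  have hodd := parity (n := n) (h := m) (fun σ => ?_) (fun σ => ?_) (fun g => ?_) hpar hab hτ σ
  · intro h
    have h1 := hm σ
    rw [h, mul_zero] at h1
    have h2 : m σ = 0 := by exact_mod_cast h1
    rw [h2] at hodd
    exact absurd hodd (by decide)
  · have h1 := hn (cj σ)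
    rw [cj_norm hu, Real.log_inv] at h1
    have h2 := hn σ
    have h3 : (n (cj σ) : ℝ) = ((- n σ : ℤ) : ℝ) := by
      rw [h1, Int.cast_neg, h2]
      ring
    exact_mod_cast h3
  · have h1 := hm (cj σ)
    have h2 : f (cj σ) = - f σ := hf σ
    rw [h2] at h1
    have h3 : (m (cj σ) : ℚ) = ((- m σ : ℤ) : ℚ) := by
      rw [h1, Int.cast_neg, hm]
      ring
    exact_mod_cast h3
  · have h1 : ((∑ σ, m σ * n (act g σ) : ℤ) : ℝ) = c * κ * Lg ι α f g := by
      unfold Lg
      push_cast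
      rw [Finset.mul_sum]
      refine Finset.sum_congr rfl fun σ _ => ?_
      have h2 : (m σ : ℝ) = (c : ℝ) * (f σ : ℝ) := by
        have := congrArg (fun x : ℚ => (x : ℝ)) (hm σ)
        push_cast at this
        exact this
      rw [h2, hn]
      change (c : ℝ) * (f σ : ℝ) * (κ * Real.log ‖ι (g (σ α))‖) = _
      ring
    rw [hL, mul_zero] at h1
    exact_mod_cast h1

/-- **There are no relations**, few exceptional slopes. -/
theorem free_of_exceptions (hu : ∀ φ : E →+* ℂ, ‖φ α‖ = 1) (hα : HasFewExceptions ι α)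
    (hq : NoQuadraticNormRelation ι α) : Free ι α := by
  classical
  intro f hf hL
  by_contra hf0
  -- the relations are multiples of `f`
  refine no_line hu hq hf hL hf0 fun g => ?_
  obtain ⟨σ₀, hσ₀⟩ : ∃ σ, f σ ≠ 0 := by
    by_contra hcon
    push Not at hcon
    exact hf0 (funext hcon)
  have hLg : ∀ k, Lg ι α (tl g f) k = 0 := by
    intro k
    have h1 := Lg_tl (ι := ι) (α := α) f g⁻¹ k
    rw [inv_inv] at h1
    rw [h1]
    exact hL _
  refine ⟨tl g f σ₀ / f σ₀, ?_⟩
  set c := tl g f σ₀ / f σ₀ with hc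
  by_contra hne
  refine value_ne_zero hu hα (f := tl g f - c • f) (odd_sub (odd_tl hf g) (odd_smul hf c))
    (fun k => ?_) (sub_ne_zero.2 hne) σ₀ ?_
  · rw [Lg_sub, Lg_smul, hLg, hL, mul_zero, sub_zero]
  · rw [Pi.sub_apply, Pi.smul_apply, smul_eq_mul, hc, div_mul_cancel₀ _ hσ₀, sub_self]

end Pool.Agent.NH33.Pq
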