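import Pool.Agent.NH33.Pq.Prim
import Pool.Agent.NH33.Ir.Crit3

/-!
# The parity of relations
-/

set_option autoImplicit false
set_option linter.unusedSectionVars false

namespace Pool.Agent.NH33.Pq

open NumberField Polynomial Module Pool.Agent.TH121.KT Pool.Agent.Y103.Hk Pool.Agent.Y103.Sh
  Pool.Agent.NH33.Ir

variable {E : Type} [Field E] [NumberField E] [IsCMField E]

/-- a system of representatives of the pairs of conjugate embeddings -/
theorem exists_half : ∃ T : Finset (E →+* Qb), ∀ σ, (σ ∈ T ↔ cj σ ∉ T) := by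
  classical
  have hne : ∀ σ : E →+* Qb, ({τ | τ = σ ∨ τ = cj σ} : Set (E →+* Qb)).Nonempty :=
    fun σ => ⟨σ, Or.inl rfl⟩
  have hr : ∀ σ, (hne σ).some = σ ∨ (hne σ).some = cj σ := fun σ => (hne σ).some_mem
  have key : ∀ (A B : Set (E →+* Qb)) (hA : A.Nonempty) (hB : B.Nonempty), A = B →
      hA.some = hB.some := by
    intro A B hA hB h
    subst h
    rfl
  have hrc : ∀ σ, (hne (cj σ)).some = (hne σ).some := by
    intro σ
    have h1 : ({τ | τ = cj σ ∨ τ = cj (cj σ)} : Set (E →+* Qb)) = {τ | τ = σ ∨ τ = cj σ} := by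
      rw [cj_cj]
      exact Set.ext fun τ => or_comm
    exact key _ _ _ _ h1
  refine ⟨Finset.univ.filter fun σ => (hne σ).some = σ, fun σ => ?_⟩
  simp only [Finset.mem_filter, Finset.mem_univ, true_and, hrc]
  rcases hr σ with h | h
  · rw [h]
    simp only [true_iff]
    exact (cj_ne σ).symm
  · rw [h]
    constructor
    · intro h1
      exact absurd h1 (cj_ne σ)
    · intro h1
      exact absurd rfl h1

/-- the sum over all embeddings -/
lemma sum_half {T : Finset (E →+* Qb)} (hT : ∀ σ, (σ ∈ T ↔ cj σ ∉ T)) {F : (E →+* Qb) → ℤ}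
    (hF : ∀ σ, F (cj σ) = F σ) : ∑ σ, F σ = 2 * ∑ σ ∈ T, F σ := by
  classical
  rw [← Finset.sum_add_sum_compl T, two_mul]
  congr 1
  refine Finset.sum_bij' (fun σ _ => cj σ) (fun σ _ => cj σ) ?_ ?_ ?_ ?_ ?_
  · intro σ hσ
    rw [Finset.mem_compl] at hσ
    by_contra h
    exact hσ ((hT σ).2 h)
  · intro σ hσ
    rw [Finset.mem_compl]
    exact (hT σ).1 hσ
  · intro σ _
    exact cj_cj σ
  · intro σ _
    exact cj_cj σ
  · intro σ _
    exact (hF σ).symm

lemma same_refl (σ : E →+* Qb) : Same σ σ := Or.inl rfl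

lemma same_symm {σ τ : E →+* Qb} (h : Same σ τ) : Same τ σ := by
  rcases h with h | h
  · exact Or.inl h.symm
  · right
    have h1 : σ = cj τ := h
    change τ = cj σ
    rw [h1, cj_cj]

lemma same_trans {σ τ ρ : E →+* Qb} (h : Same σ τ) (h' : Same τ ρ) : Same σ ρ := by
  rcases h with h | h <;> rcases h' with h' | h'
  · exact Or.inl (h.trans h')
  · right; exact h.trans h'
  · right
    have h1 : σ = cj τ := h
    change σ = cj ρ
    rw [h1, h']
  · left
    have h1 : σ = cj τ := h
    have h2 : τ = cj ρ := h'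
    rw [h1, h2, cj_cj]

lemma same_act (g : GQ) {σ τ : E →+* Qb} (h : Same σ τ) : Same (act g σ) (act g τ) := by
  rcases h with h | h
  · exact Or.inl (by rw [h])
  · right
    have h1 : σ = cj τ := h
    change act g σ = cj (act g τ)
    rw [h1, act_cj]

lemma same_act_iff (g : GQ) {σ τ : E →+* Qb} : Same (act g σ) τ ↔ Same σ (act g⁻¹ τ) := by
  constructor
  · intro h
    have h1 := same_act g⁻¹ h
    rwa [act_inv_act] at h1
  · intro h
    have h1 := same_act g h
    rwa [act_act_inv] at h1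

lemma apart_iff_not_same {σ τ : E →+* Qb} : Apart σ τ ↔ ¬ Same σ τ := (not_or).symm

/-- **The parity of a relation.** -/
theorem parity {n h : (E →+* Qb) → ℤ} (hn : ∀ σ, n (cj σ) = - n σ) (hh : ∀ σ, h (cj σ) = - h σ)
    (hrel : ∀ g : GQ, ∑ σ, h σ * n (act g σ) = 0) {ε : ℤ} {a b : E →+* Qb}
    (hpar : ∀ σ, Odd (n σ + ε) ↔ (Same σ a ∨ Same σ b))
    (hab : a = b ∨ (Apart a b ∧ 6 ≤ finrank ℚ E ∧ HasPrimitiveRealSubfield E))
    {σ₁ : E →+* Qb} (h₁ : Odd (h σ₁)) (σ : E →+* Qb) : Odd (h σ) := by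
  classical
  obtain ⟨T, hT⟩ := exists_half (E := E)
  let x : (E →+* Qb) → ZMod 2 := fun σ => (h σ : ZMod 2)
  have hx2 : ∀ y : ZMod 2, y + y = 0 := fun y => CharTwo.add_self_eq_zero y
  have hxc : ∀ σ, x (cj σ) = x σ := by
    intro σ
    simp only [x]
    rw [hh, Int.cast_neg, ZMod.neg_eq_self_mod_two]
  have hxs : ∀ {σ τ : E →+* Qb}, Same σ τ → x σ = x τ := by
    rintro σ τ (h | h)
    · rw [h]
    · have h1 : σ = cj τ := h
      rw [h1, hxc]
  -- parity of `n`
  have hnp : ∀ σ, (n σ : ZMod 2) = (ε : ZMod 2) + if Same σ a ∨ Same σ b then 1 else 0 := by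
    intro σ
    by_cases h1 : Same σ a ∨ Same σ b
    · rw [if_pos h1]
      obtain ⟨k, hk⟩ := (hpar σ).2 h1
      have h2 : n σ = 2 * k + 1 - ε := by omega
      have h3 : (2 : ZMod 2) = 0 := rfl
      rw [h2]
      push_cast
      rw [h3, zero_mul, zero_add, sub_eq_add_neg, ZMod.neg_eq_self_mod_two, add_comm]
    · rw [if_neg h1, add_zero]
      have h0 : Even (n σ + ε) := Int.not_odd_iff_even.1 fun h2 => h1 ((hpar σ).1 h2)
      obtain ⟨k, hk⟩ := h0
      have h2 : n σ = k + k - ε := by omega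
      rw [h2]
      push_cast
      rw [hx2, zero_sub, ZMod.neg_eq_self_mod_two]
  -- the sum over the representatives
  have hS : ∀ (g : GQ) (τ : E →+* Qb),
      ∑ σ ∈ T, x σ * (if Same (act g σ) τ then 1 else 0) = x (act g⁻¹ τ) := by
    intro g τ
    obtain ⟨t, ht, htT⟩ : ∃ t, Same t (act g⁻¹ τ) ∧ t ∈ T := by
      by_cases h1 : act g⁻¹ τ ∈ T
      · exact ⟨_, same_refl _, h1⟩
      · refine ⟨cj (act g⁻¹ τ), Or.inr rfl, ?_⟩
        by_contra h2
        exact h1 ((hT _).2 h2)
    rw [Finset.sum_eq_single_of_mem t htT]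
    · rw [if_pos ((same_act_iff g).2 ht), mul_one, hxs ht]
    · intro σ hσ hne
      rw [if_neg, mul_zero]
      intro h1
      have h2 : Same σ t := same_trans ((same_act_iff g).1 h1) (same_symm ht)
      rcases h2 with h2 | h2
      · exact hne h2
      · have h3 : σ = cj t := h2
        rw [h3] at hσ
        exact (hT t).1 htT hσ
  have hrel2 : ∀ g : GQ, (ε : ZMod 2) * ∑ σ ∈ T, x σ +
      ∑ σ ∈ T, x σ * (if Same (act g σ) a ∨ Same (act g σ) b then 1 else 0) = 0 := by
    intro g
    have h1 := hrel g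
    rw [sum_half hT fun σ => by rw [hh, act_cj, hn]; ring] at h1
    have h2 : ∑ σ ∈ T, h σ * n (act g σ) = 0 := by omega
    have h3 := congrArg (fun z : ℤ => (z : ZMod 2)) h2
    simp only [Int.cast_sum, Int.cast_mul, Int.cast_zero] at h3
    refine Eq.trans ?_ h3
    rw [Finset.mul_sum, ← Finset.sum_add_distrib]
    refine Finset.sum_congr rfl fun σ _ => ?_
    rw [hnp]
    simp only [x]
    ring
  have hodd : ∀ σ, Odd (h σ) ↔ x σ = 1 := by
    intro σ
    simp only [x]
    constructor
    · rintro ⟨k, hk⟩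
      rw [hk]
      push_cast
      have h3 : (2 : ZMod 2) = 0 := rfl
      rw [h3, zero_mul, zero_add]
    · intro h1
      rw [← Int.not_even_iff_odd]
      rintro ⟨k, hk⟩
      rw [hk] at h1
      push_cast at h1
      rw [hx2] at h1
      exact zero_ne_one h1
  suffices hconst : ∀ σ τ, x σ = x τ by
    rw [hodd, hconst σ σ₁]
    exact (hodd σ₁).1 h₁
  rcases hab with hab | ⟨hab, hdeg, hprim⟩
  · subst hab
    have h1 : ∀ g : GQ, (ε : ZMod 2) * ∑ σ ∈ T, x σ + x (act g⁻¹ a) = 0 := by
      intro g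
      have h2 := hrel2 g
      simp only [or_self] at h2
      rwa [hS] at h2
    have h2 : ∀ σ, (ε : ZMod 2) * ∑ σ ∈ T, x σ + x σ = 0 := by
      intro σ
      obtain ⟨g, hg⟩ := exists_act_eq a σ
      have h3 := h1 g⁻¹
      rwa [inv_inv, hg] at h3
    intro σ τ
    have h3 := h2 σ
    have h4 := h2 τ
    exact add_left_cancel (h3.trans h4.symm)
  · have h1 : ∀ g : GQ, x (act g⁻¹ a) + x (act g⁻¹ b) = (ε : ZMod 2) * ∑ σ ∈ T, x σ := by
      intro g
      have h2 := hrel2 g
      have h3 : ∀ σ : E →+* Qb, (if Same (act g σ) a ∨ Same (act g σ) b then (1 : ZMod 2) else 0) =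
          (if Same (act g σ) a then 1 else 0) + (if Same (act g σ) b then 1 else 0) := by
        intro σ
        by_cases h4 : Same (act g σ) a
        · have h5 : ¬ Same (act g σ) b := fun h5 =>
            apart_iff_not_same.1 hab (same_trans (same_symm h4) h5)
          rw [if_pos (Or.inl h4), if_pos h4, if_neg h5, add_zero]
        · by_cases h5 : Same (act g σ) b
          · rw [if_pos (Or.inr h5), if_neg h4, if_pos h5, zero_add]
          · rw [if_neg (by tauto), if_neg h4, if_neg h5, add_zero]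
      simp only [h3, mul_add, Finset.sum_add_distrib] at h2
      rw [hS, hS] at h2
      have h4 := hx2 ((ε : ZMod 2) * ∑ σ ∈ T, x σ)
      linear_combination h2 - h4
    -- the first relation
    let R : (E →+* Qb) → (E →+* Qb) → Prop := fun σ τ =>
      ∃ e : ZMod 2, ∀ g : GQ, x (act g σ) + x (act g τ) = e
    have hR : IsCongr R :=
      { refl := fun σ => ⟨0, fun g => hx2 _⟩
        symm := fun ⟨e, he⟩ => ⟨e, fun g => by rw [add_comm]; exact he g⟩
        trans := fun {σ τ ρ} ⟨e, he⟩ ⟨e', he'⟩ => ⟨e + e', fun g => by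
          rw [← he g, ← he' g]
          have h5 := hx2 (x (act g τ))
          linear_combination -h5⟩
        conj := fun σ => ⟨0, fun g => by rw [act_cj, hxc]; exact hx2 _⟩
        act := fun k {σ τ} ⟨e, he⟩ => ⟨e, fun g => by
          have h5 := he (g * k)
          rwa [act_mul, act_mul] at h5⟩ }
    have hRall : ∀ σ τ, R σ τ := by
      rcases prim hprim hR with h2 | h2
      · exfalso
        refine apart_iff_not_same.1 hab (h2 a b ⟨(ε : ZMod 2) * ∑ σ ∈ T, x σ, fun g => ?_⟩)
        have h3 := h1 g⁻¹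
        rwa [inv_inv] at h3
      · exact h2
    -- the second relation
    let R' : (E →+* Qb) → (E →+* Qb) → Prop := fun σ τ => ∀ g : GQ, x (act g σ) = x (act g τ)
    have hR' : IsCongr R' :=
      { refl := fun σ g => rfl
        symm := fun h5 g => (h5 g).symm
        trans := fun h5 h6 g => (h5 g).trans (h6 g)
        conj := fun σ g => by rw [act_cj, hxc]
        act := fun k {σ τ} h5 g => by
          have h6 := h5 (g * k)
          rwa [act_mul, act_mul] at h6 }
    have hRR : ∀ σ τ, x σ = x τ → R' σ τ := by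
      intro σ τ hst g
      obtain ⟨e, he⟩ := hRall σ τ
      have h5 := he 1
      rw [act_one, act_one, hst, hx2] at h5
      have h6 := he g
      rw [← h5] at h6
      have h7 := hx2 (x (act g τ))
      linear_combination h6 - h7
    rcases prim hprim hR' with h2 | h2
    · exfalso
      obtain ⟨d, hd⟩ : ∃ d, finrank ℚ E = 2 * d := by
        have h3 : Fintype.card (E →+* Qb) = 2 * T.card := by
          have h4 := sum_half hT (F := fun _ => 1) fun _ => rfl
          simp only [Finset.sum_const, Finset.card_univ, mul_one, nsmul_eq_mul] at h4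
          exact_mod_cast h4
        exact ⟨T.card, by rw [← h3, Embeddings.card]⟩
      obtain ⟨ρ, h3, h4⟩ := exists_third hd (by omega) a b
      have hdec : ∀ u v w : ZMod 2, u = v ∨ u = w ∨ v = w := by decide
      rcases hdec (x a) (x b) (x ρ) with h5 | h5 | h5
      · exact apart_iff_not_same.1 hab (h2 _ _ (hRR _ _ h5))
      · exact apart_iff_not_same.1 h3 (h2 _ _ (hRR _ _ h5))
      · exact apart_iff_not_same.1 h4 (h2 _ _ (hRR _ _ h5))
    · intro σ τ
      have h3 := h2 σ τ 1
      rwa [act_one, act_one] at h3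

end Pool.Agent.NH33.Pq
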