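import Pool.Agent.NH33.Pq.Dbl
import Pool.Agent.NH33.Pq.Par

/-!
# Prime degree
-/

set_option autoImplicit false
set_option linter.unusedSectionVars false

namespace Pool.Agent.NH33.Pq

open NumberField Polynomial Module Pool.Agent.TH121.KT Pool.Agent.Y103.Hk Pool.Agent.Y103.Sh
  Pool.Agent.NH33.Ir

variable {E : Type} [Field E] [NumberField E] [IsCMField E]

/-- **Prime degree**, odd: a stable subspace or its complement is a line. -/
theorem lines_of_prime {ℓ : ℕ} (hℓ : ℓ.Prime) (h2 : ℓ ≠ 2) (hE : finrank ℚ E = 2 * ℓ)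
    {P : Submodule ℚ ((E →+* Qb) → ℚ)} (hodd : ∀ f ∈ P, IsOddFun f)
    (hstab : ∀ g : GQ, ∀ f ∈ P, tl g f ∈ P) {n₀ m₀ : (E →+* Qb) → ℚ} (hn₀ : n₀ ∈ P)
    (hn₀0 : n₀ ≠ 0) (hm₀ : m₀ ∈ perp P) (hm₀0 : m₀ ≠ 0) :
    (∀ g : GQ, ∃ c : ℚ, tl g n₀ = c • n₀) ∨
      ((∀ g : GQ, ∃ c : ℚ, tl g m₀ = c • m₀) ∧ ∀ m ∈ perp P, ∃ c : ℚ, m = c • m₀) := by
  classical
  have hX : Fintype.card (E →+* Qb) = 2 * ℓ := by rw [Embeddings.card, hE]
  obtain ⟨g, hg, a, ha⟩ := exists_order (E := E) hℓ (by rw [hX]; exact Dvd.intro_left 2 rfl)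
  -- the cycle
  let s : ℕ → (E →+* Qb) := fun i => act (g ^ i) a
  have hs0 : s 0 = a := by
    change act (g ^ 0) a = a
    rw [pow_zero, act_one]
  have hsl : ∀ i j, act (g ^ j) (s i) = s (i + j) := by
    intro i j
    change act (g ^ j) (act (g ^ i) a) = act (g ^ (i + j)) a
    rw [← act_mul, ← pow_add, add_comm]
  have hper : ∀ i, s (i + ℓ) = s i := by
    intro i
    rw [← hsl, hg]
  have hmin : Function.minimalPeriod (act g) a = ℓ := by
    have h3 : Function.IsPeriodicPt (act g) ℓ a := by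
      change (act g)^[ℓ] a = a
      rw [← act_pow, hg]
    have h4 := h3.minimalPeriod_dvd
    rcases (Nat.dvd_prime hℓ).1 h4 with h5 | h5
    · exfalso
      apply ha
      exact Function.minimalPeriod_eq_one_iff_isFixedPt.1 h5
    · exact h5
  have hinj : ∀ i < ℓ, ∀ j < ℓ, s i = s j → i = j := by
    intro i hi j hj hij
    have h3 : (act g)^[i] a = (act g)^[j] a := by rw [← act_pow, ← act_pow]; exact hij
    exact Function.iterate_injOn_Iio_minimalPeriod (by rw [hmin]; exact hi) (by rw [hmin]; exact hj)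
      h3
  have hmod : ∀ i, s i = s (i % ℓ) := by
    intro i
    have h3 : ∀ q r, s (r + q * ℓ) = s r := by
      intro q r
      induction q with
      | zero => rw [zero_mul, add_zero]
      | succ q ih => rw [Nat.succ_mul, ← add_assoc, hper, ih]
    conv_lhs => rw [← Nat.mod_add_div i ℓ, mul_comm]
    rw [h3]
  have hdis : ∀ i < ℓ, ∀ j < ℓ, s i ≠ cj (s j) := by
    intro i hi j hj hij
    -- then `cj a = s t` for some `t`
    obtain ⟨t, ht⟩ : ∃ t, s t = cj a := by
      refine ⟨i + (ℓ - j), ?_⟩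
      rw [← hsl, hij, act_cj, hsl]
      congr 1
      rw [show j + (ℓ - j) = 0 + ℓ by omega, hper, hs0]
    have h3 : s (t + t) = s 0 := by
      rw [← hsl, ht, act_cj]
      change cj (s t) = _
      rw [ht, cj_cj, hs0]
    rw [hmod (t + t)] at h3
    have h4 := hinj _ (Nat.mod_lt _ hℓ.pos) 0 hℓ.pos h3
    have h5 : ℓ ∣ t + t := Nat.dvd_of_mod_eq_zero h4
    rw [← two_mul] at h5
    have h6 : ℓ ∣ t := by
      rcases (Nat.Prime.dvd_mul hℓ).1 h5 with h7 | h7
      · exact absurd ((Nat.prime_dvd_prime_iff_eq hℓ Nat.prime_two).1 h7) h2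
      · exact h7
    have h7 : s t = s 0 := by
      rw [hmod t, Nat.mod_eq_zero_of_dvd h6]
    rw [h7, hs0] at ht
    exact cj_ne a ht.symm
  -- the cycle and its conjugate are all embeddings
  let T : Fin ℓ ⊕ Fin ℓ → (E →+* Qb) := Sum.elim (fun i => s i) (fun i => cj (s i))
  have hT : Function.Bijective T := by
    rw [Fintype.bijective_iff_injective_and_card]
    refine ⟨?_, by simp only [Fintype.card_sum, Fintype.card_fin]; rw [hX]; ring⟩
    rintro (i | i) (j | j) hij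
    · exact congrArg Sum.inl (Fin.ext (hinj i i.2 j j.2 hij))
    · exact absurd hij (hdis i i.2 j j.2)
    · exact absurd hij.symm (hdis j j.2 i i.2)
    · refine congrArg Sum.inr (Fin.ext (hinj i i.2 j j.2 ?_))
      have h3 := congrArg cj hij
      change cj (cj (s i)) = cj (cj (s j)) at h3
      rwa [cj_cj, cj_cj] at h3
  have hsum : ∀ F : (E →+* Qb) → ℚ, (∀ σ, F (cj σ) = F σ) →
      ∑ σ, F σ = 2 * ∑ i ∈ Finset.range ℓ, F (s i) := by
    intro F hF
    rw [← Equiv.sum_comp (Equiv.ofBijective T hT), Fintype.sum_sum_type]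
    have h3 : ∑ i : Fin ℓ, F (s i) = ∑ i ∈ Finset.range ℓ, F (s i) :=
      (Finset.sum_range fun i => F (s i)).symm
    have h4 : ∀ i : Fin ℓ, F (Equiv.ofBijective T hT (Sum.inr i)) = F (s i) := fun i => hF _
    have h5 : ∀ i : Fin ℓ, F (Equiv.ofBijective T hT (Sum.inl i)) = F (s i) := fun i => rfl
    rw [Finset.sum_congr rfl fun i _ => h4 i, Finset.sum_congr rfl fun i _ => h5 i, h3]
    ring
  -- constant functions
  have hline : ∀ f f' : (E →+* Qb) → ℚ, IsOddFun f → IsOddFun f' → f ≠ 0 →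
      (∀ i < ℓ, f (s i) = f (s 0)) → (∀ i < ℓ, f' (s i) = f' (s 0)) → ∃ c : ℚ, f' = c • f := by
    intro f f' hf hf' hf0 hc hc'
    have h3 : f (s 0) ≠ 0 := by
      intro h0
      apply hf0
      funext σ
      obtain ⟨x, rfl⟩ := hT.2 σ
      rcases x with i | i
      · change f (s i) = 0
        rw [hc i i.2, h0]
      · change f (cj (s i)) = 0
        have h4 : f (cj (s i)) = - f (s i) := hf _
        rw [h4, hc i i.2, h0, neg_zero]
    refine ⟨f' (s 0) / f (s 0), ?_⟩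
    funext σ
    rw [Pi.smul_apply, smul_eq_mul]
    obtain ⟨x, rfl⟩ := hT.2 σ
    rcases x with i | i
    · change f' (s i) = _ * f (s i)
      rw [hc i i.2, hc' i i.2, div_mul_cancel₀ _ h3]
    · change f' (cj (s i)) = _ * f (cj (s i))
      have h4 : f (cj (s i)) = - f (s i) := hf _
      have h5 : f' (cj (s i)) = - f' (s i) := hf' _
      rw [h4, h5, hc i i.2, hc' i i.2, mul_neg, div_mul_cancel₀ _ h3]
  -- the alternative
  have halt : ∀ f ∈ P, ∀ m ∈ perp P, (∀ i < ℓ, f (s i) = f (s 0)) ∨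
      ∀ i < ℓ, m (s i) = m (s 0) := by
    intro f hf m hm
    refine circ hℓ (fun i => f (s i)) (fun i => m (s i)) (fun i => by
      change m (s (i + ℓ)) = m (s i)
      rw [hper]) fun j => ?_
    have h3 := (perp_stable hstab (g ^ j) hm).2 f hf
    rw [hsum (fun σ => f σ * tl (g ^ j) m σ)] at h3
    · have h4 := (mul_eq_zero.1 h3).resolve_left two_ne_zero
      rw [← h4]
      refine Finset.sum_congr rfl fun i _ => ?_
      change _ = f (s i) * m (act (g ^ j) (s i))
      rw [hsl]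
    · intro σ
      have h4 : f (cj σ) = - f σ := hodd f hf σ
      have h5 : tl (g ^ j) m (cj σ) = - tl (g ^ j) m σ := odd_tl hm.1 (g ^ j) σ
      rw [h4, h5]
      ring
  by_cases hall : ∀ f ∈ P, ∀ i < ℓ, f (s i) = f (s 0)
  · left
    exact fun h => hline _ _ (hodd n₀ hn₀) (odd_tl (hodd n₀ hn₀) h) hn₀0 (hall n₀ hn₀)
      (hall _ (hstab h n₀ hn₀))
  · right
    push Not at hall
    obtain ⟨f, hf, i, hi, hfi⟩ := hall
    have hall' : ∀ m ∈ perp P, ∀ i < ℓ, m (s i) = m (s 0) := by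
      intro m hm
      rcases halt f hf m hm with h | h
      · exact absurd (h i hi) hfi
      · exact h
    exact ⟨fun h => hline _ _ hm₀.1 (odd_tl hm₀.1 h) hm₀0 (hall' m₀ hm₀)
      (hall' _ (perp_stable hstab h hm₀)), fun m hm => hline _ _ hm₀.1 hm.1 hm₀0
      (hall' m₀ hm₀) (hall' m hm)⟩

/-- **Degree four** is doubly transitive. -/
theorem double_of_four (hE : finrank ℚ E = 2 * 2) : IsDoublyTransitive E := by
  classical
  intro σ₁ σ₂ τ₁ τ₂ h h'
  obtain ⟨g, hg⟩ := exists_act_eq σ₁ τ₁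
  refine ⟨g, Or.inl hg, ?_⟩
  have hX : Fintype.card (E →+* Qb) = 4 := by rw [Embeddings.card, hE]
  by_contra hcon
  have hcon' : ¬ Same (act g σ₂) τ₂ := hcon
  have h1 : Apart τ₁ (act g σ₂) := by
    rw [apart_iff_not_same, ← hg]
    intro h2
    have h3 := same_act g⁻¹ h2
    rw [act_inv_act, act_inv_act] at h3
    exact apart_iff_not_same.1 h h3
  have hne : ∀ σ τ : E →+* Qb, Apart σ τ → σ ≠ τ ∧ σ ≠ cj τ ∧ cj σ ≠ τ ∧ cj σ ≠ cj τ := by
    intro σ τ h2
    refine ⟨h2.1, h2.2, fun h3 => h2.2 ?_, fun h3 => h2.1 ?_⟩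
    · change σ = cj τ
      rw [← h3, cj_cj]
    · rw [← cj_cj σ, h3, cj_cj]
  have ha := hne _ _ h'
  have hb := hne _ _ h1
  have hc := hne _ _ (apart_iff_not_same.2 hcon')
  have h2 : ({τ₁, cj τ₁, τ₂, cj τ₂, act g σ₂} : Finset (E →+* Qb)).card = 5 := by
    rw [Finset.card_insert_of_notMem, Finset.card_insert_of_notMem, Finset.card_insert_of_notMem,
      Finset.card_insert_of_notMem, Finset.card_singleton]
    · rw [Finset.mem_singleton]
      exact fun h => hc.2.1 h.symm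
    · rw [Finset.mem_insert, Finset.mem_singleton, not_or]
      exact ⟨(cj_ne τ₂).symm, fun h => hc.1 h.symm⟩
    · rw [Finset.mem_insert, Finset.mem_insert, Finset.mem_singleton, not_or, not_or]
      exact ⟨ha.2.2.1, ha.2.2.2, hb.2.2.1⟩
    · rw [Finset.mem_insert, Finset.mem_insert, Finset.mem_insert, Finset.mem_singleton, not_or,
        not_or, not_or]
      exact ⟨(cj_ne τ₁).symm, ha.1, ha.2.1, hb.1⟩
  have h3 := Finset.card_le_univ ({τ₁, cj τ₁, τ₂, cj τ₂, act g σ₂} : Finset (E →+* Qb))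
  omega

variable {p : ℕ} [Fact p.Prime] {ι : Qb →+* PadicAlgCl p} {α : E}

/-- **Prime degree**: there are no relations. -/
theorem free_of_prime {ℓ : ℕ} (hℓ : ℓ.Prime) (hE : finrank ℚ E = 2 * ℓ)
    (hu : ∀ φ : E →+* ℂ, ‖φ α‖ = 1) (hne : ∃ σ : E →+* Qb, ‖ι (σ α)‖ ≠ 1)
    (hq : NoQuadraticNormRelation ι α) (hs : SlopesNotQuadratic ι α) : Free ι α := by
  classical
  by_cases h2 : ℓ = 2
  · subst h2
    by_cases hno : NoImaginaryQuadratic E
    · exact free_of_irreducible (irreducible_prime Nat.prime_two hE hno) hu hne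
    · unfold NoImaginaryQuadratic at hno
      push Not at hno
      obtain ⟨x, d, hd, hx⟩ := hno
      exact free_of_double hu (double_of_four hE) hd hx hq hs
  · rw [free_iff_rels]
    by_contra hbot
    obtain ⟨n₀, hn₀, hn₀0⟩ := Submodule.exists_mem_ne_zero_of_ne_bot hbot
    obtain ⟨σ, hσ⟩ := hne
    have hdl : dl σ ∉ rels ι α := by
      intro h
      have h1 := h.2 1
      rw [Lg_dl hu] at h1
      have h3 : Real.log ‖ι (σ α)‖ ≠ 0 :=
        Real.log_ne_zero_of_pos_of_ne_one (norm_pos' hu σ) hσ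
      apply h3
      linarith
    obtain ⟨m₀, hm₀, hm₀1⟩ := exists_perp' (P := rels ι α) (fun f hf => hf.1) (odd_dl σ) hdl
    have hm₀0 : m₀ ≠ 0 := by
      rintro rfl
      apply hm₀1
      simp
    rcases lines_of_prime hℓ h2 hE (P := rels ι α) (fun f hf => hf.1) rels_stable hn₀ hn₀0 hm₀
      hm₀0 with h | ⟨h, h'⟩
    · exact no_line hu hq hn₀.1 hn₀.2 hn₀0 h
    · exact no_perp_line hu hs hm₀.1 hm₀0 h h'

end Pool.Agent.NH33.Pq
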