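import Pool.Agent.NH33.Ir.Main
import Pool.Agent.NH33.Pq.Free
import Pool.Agent.NH33.Pq.Prime

/-!
# Products of varieties given by numbers without Weil relations
-/

set_option autoImplicit false
set_option linter.unusedSectionVars false

open CategoryTheory AlgebraicGeometry NumberField
open scoped TensorProduct

universe u v

namespace Pool.Agent.NH33.Pq

open Pool.Agent.H914 Pool.Agent.H914.VarClass Pool.Agent.H914.VarClass.Obj
  Pool.Agent.H914.WeilCohomology Pool.Agent.H281R3.HT Pool.Agent.W552 Pool.Agent.W534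
  Pool.Agent.W458.RK Pool.Agent.W458.MF Pool.Agent.TH132.A Pool.Agent.W536.RR
  Pool.Agent.TH121.KT Pool.Agent.Y103.Hk Pool.Agent.Y103.Sh Pool.Agent.NH33.Ir

section one

variable {p : ℕ} [Fact p.Prime] {ι : Qb →+* PadicAlgCl p} {E : Type} [Field E] [NumberField E]
  [IsCMField E] {α : E}

/-- **Regular numbers**: there are no relations. -/
theorem free_of_regular (hu : ∀ φ : E →+* ℂ, ‖φ α‖ = 1) (h : IsRegularAt ι α) : Free ι α := by
  rcases h with h | ⟨hq, h | ⟨hs, ⟨⟨ℓ, hℓ, hE⟩, hne⟩ | ⟨hE, hx⟩⟩⟩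
  · exact free_of_primePower hu h
  · exact free_of_exceptions hu h hq
  · exact free_of_prime hℓ hE hu hne hq hs
  · unfold NoImaginaryQuadratic at hx
    push Not at hx
    obtain ⟨x, d, hd, hx⟩ := hx
    exact free_of_double hu hE hd hx hq hs

end one

variable {k : Type u} [Field k] {𝒱 : VarClass k} {ops : CycleOps 𝒱}
  {W : WeilCohomology.{u, v} ops} {p : ℕ} [Fact p.Prime] {Φ : FrobSystem W p}
  {ι : Qb →+* PadicAlgCl p}
  {r : ℕ} {X : Fin r → 𝒱.Obj} {b e : Fin r → ℕ} {E : Fin r → Type} [∀ i, Field (E i)]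
  [∀ i, NumberField (E i)] [∀ i, IsCMField (E i)]
  {α : ∀ i, E i} {Z U : 𝒱.Obj}

theorem famOK_of_regular (hu : ∀ i (φ : E i →+* ℂ), ‖φ (α i)‖ = 1)
    (hreg : ∀ i, IsRegularAt ι (α i))
    (hreal : ∀ i j, i ≠ j → RealIntersection (E i) (galoisClosure (E j)) ∨
      RealIntersection (E j) (galoisClosure (E i))) :
    FamOK ι α {L | IsStable L ∧ ∀ i, RealIntersection (E i) L} where
  unitary := hu
  free i := free_of_regular (hu i) (hreg i)
  stable L hL := hL.1
  fields i L hL := noInv_of_real hL.1 (hL.2 i)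
  pair i j hij := by
    rcases hreal i j hij with h | h
    · exact Or.inl (noInv_of_real (stable_closure _) h)
    · exact Or.inr (noInv_of_real (stable_closure _) h)

/-- **The Tate conjecture for products.** -/
theorem final [IsAlgClosed W.K] (hu : ∀ i (φ : E i →+* ℂ), ‖φ (α i)‖ = 1)
    (hreg : ∀ i, IsRegularAt ι (α i))
    (hreal : ∀ i j, i ≠ j → RealIntersection (E i) (galoisClosure (E j)) ∨
      RealIntersection (E j) (galoisClosure (E i)))
    (he : ∀ i, 0 < e i) (hX : ∀ i, TateIn Φ ((X i).prod (X i)) (b i))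
    (hZ : IsGeneratedFrom Φ X b e α Z) :
    (∀ c, SemisimpleTateIn Φ Z c) ∧ HomIsNum W Z ∧
    ∀ U : 𝒱.Obj, HasSlopes Φ ι {L | IsStable L ∧ ∀ i, RealIntersection (E i) L} U →
      (HasCycle W Z 0 → (HomIsNum W (Z.prod U) ↔ HomIsNum W U)) ∧ ∀ c,
      (TateIn Φ (Z.prod U) c ↔ ∀ i ≤ c, HasCycle W Z i → TateIn Φ U (c - i)) ∧
      (SemisimpleTateIn Φ (Z.prod U) c ↔
        ∀ i ≤ c, HasCycle W Z i → SemisimpleTateIn Φ U (c - i)) :=
  main_gen (pairs_of_tate hu he hX) he hZ (famOK_of_regular hu hreg hreal).triv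

end Pool.Agent.NH33.Pq
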