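import Pool.Agent.NH33.Pq.Defs
import Pool.Agent.NH33.Ir.Crit2

/-!
# Invariant lines of relations
-/

set_option autoImplicit false
set_option linter.unusedSectionVars false

namespace Pool.Agent.NH33.Pq

open NumberField Polynomial Module Pool.Agent.TH121.KT Pool.Agent.Y103.Hk Pool.Agent.Y103.Sh
  Pool.Agent.NH33.Ir

variable {p : ℕ} [Fact p.Prime] {ι : Qb →+* PadicAlgCl p} {E : Type} [Field E] [NumberField E]
  [IsCMField E] {α : E}

/-- **An invariant line of odd functions gives an imaginary quadratic field.** -/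
theorem quadratic_of_line' {f : (E →+* Qb) → ℚ} (hf : IsOddFun f) (hf0 : f ≠ 0)
    (hline : ∀ g : GQ, ∃ c : ℚ, tl g f = c • f) :
    ∃ (x : E) (d : ℚ) (s : Qb) (σ₀ : E →+* Qb), d < 0 ∧ x ^ 2 = (d : E) ∧ s ≠ 0 ∧ f σ₀ ≠ 0 ∧
      ∀ σ, (f σ : Qb) * s = (f σ₀ : Qb) * σ x := by
  classical
  obtain ⟨σ₀, hσ₀⟩ : ∃ σ, f σ ≠ 0 := by
    by_contra hcon
    push Not at hcon
    exact hf0 (funext hcon)
  have hsgn : ∀ g : GQ, tl g f = f ∨ tl g f = - f := by
    intro g
    obtain ⟨c, hc⟩ := hline g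
    rcases sign_of_line hf0 hc with h | h
    · left; rw [hc, h, one_smul]
    · right; rw [hc, h, neg_one_smul]
  -- an element with nonzero weighted trace
  obtain ⟨z, hz⟩ : ∃ z : E, ∑ σ : E →+* Qb, ((f σ : ℚ) : Qb) * σ z ≠ 0 := by
    by_contra hcon
    push Not at hcon
    have hlin := linearIndependent_monoidHom E Qb
    have h1 : LinearIndependent Qb (fun σ : E →+* Qb => ((σ : E →* Qb) : E → Qb)) :=
      hlin.comp (fun σ : E →+* Qb => (σ : E →* Qb)) (by
        intro a b hab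
        ext x
        exact DFunLike.congr_fun hab x)
    rw [Fintype.linearIndependent_iff] at h1
    have h2 := h1 (fun σ => ((f σ : ℚ) : Qb)) (by
      funext x
      simp only [Finset.sum_apply, Pi.smul_apply, smul_eq_mul, Pi.zero_apply]
      exact hcon x) σ₀
    exact hσ₀ (by exact_mod_cast h2)
  set s : Qb := ∑ σ : E →+* Qb, ((f σ : ℚ) : Qb) * σ z with hs
  have hgs : ∀ g : GQ, g s = ∑ σ : E →+* Qb, ((f (act g⁻¹ σ) : ℚ) : Qb) * σ z := by
    intro g
    rw [hs, map_sum]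
    refine Fintype.sum_equiv ⟨act g, act g⁻¹, act_inv_act g, act_act_inv g⟩ _ _ fun σ => ?_
    change g (((f σ : ℚ) : Qb) * σ z) = ((f (act g⁻¹ (act g σ)) : ℚ) : Qb) * (act g σ) z
    rw [act_inv_act, map_mul, map_ratCast]
    rfl
  have hsq : ∀ g : GQ, (tl g⁻¹ f = f ∧ g s = s) ∨ (tl g⁻¹ f = - f ∧ g s = - s) := by
    intro g
    rcases hsgn g⁻¹ with h | h
    · left
      refine ⟨h, ?_⟩
      rw [hgs]
      refine Finset.sum_congr rfl fun σ _ => ?_
      have := congrFun h σ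
      change f (act g⁻¹ σ) = f σ at this
      rw [this]
    · right
      refine ⟨h, ?_⟩
      rw [hgs, hs, ← Finset.sum_neg_distrib]
      refine Finset.sum_congr rfl fun σ _ => ?_
      have := congrFun h σ
      change f (act g⁻¹ σ) = - f σ at this
      rw [this]
      push_cast
      ring
  -- the element of `E`
  obtain ⟨x, hx⟩ : ∃ x : E, σ₀ x = s := by
    have h1 : s ∈ σ₀.toRatAlgHom.fieldRange := by
      refine mem_of_fixed _ fun h hh => ?_
      have h2 : act h σ₀ = σ₀ := by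
        ext y
        exact hh (σ₀ y) ⟨y, rfl⟩
      rcases hsq h with h3 | h3
      · exact h3.2
      · exfalso
        have h4 := congrFun h3.1 σ₀
        change f (act h⁻¹ σ₀) = - f σ₀ at h4
        have h5 : act h⁻¹ σ₀ = σ₀ := by
          conv_lhs => rw [← h2]
          exact act_inv_act h σ₀
        rw [h5] at h4
        apply hσ₀
        linarith
    obtain ⟨x, hx⟩ := h1
    exact ⟨x, hx⟩
  obtain ⟨d, hd⟩ : ∃ d : ℚ, s ^ 2 = (d : Qb) := by
    have h1 : s ^ 2 ∈ (⊥ : IntermediateField ℚ Qb) := by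
      refine mem_of_fixed _ fun h _ => ?_
      rw [map_pow]
      rcases hsq h with h3 | h3
      · rw [h3.2]
      · rw [h3.2, neg_sq]
    obtain ⟨d, hd⟩ := IntermediateField.mem_bot.1 h1
    exact ⟨d, by rw [← hd]; exact eq_ratCast (algebraMap ℚ Qb) d⟩
  have hxd : x ^ 2 = (d : E) := by
    apply σ₀.injective
    rw [map_pow, hx, hd, map_ratCast]
  have hx0 : x ≠ 0 := by
    rintro rfl
    rw [map_zero] at hx
    exact hz hx.symm
  have hconj : IsCMField.complexConj E x = - x := by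
    obtain ⟨g, hg⟩ := exists_act_eq σ₀ (cj σ₀)
    apply σ₀.injective
    have h1 : σ₀ (IsCMField.complexConj E x) = g (σ₀ x) := (RingHom.congr_fun hg x).symm
    rw [h1, hx, map_neg, hx]
    rcases hsq g with h3 | h3
    · exfalso
      have h4 := congrFun h3.1 (cj σ₀)
      change f (act g⁻¹ (cj σ₀)) = f (cj σ₀) at h4
      have h5 : act g⁻¹ (cj σ₀) = σ₀ := by rw [← hg]; exact act_inv_act g σ₀
      rw [h5] at h4
      have h6 : f (cj σ₀) = - f σ₀ := hf σ₀
      rw [h6] at h4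
      apply hσ₀
      linarith
    · exact h3.2
  refine ⟨x, d, s, σ₀, ?_, hxd, hz, hσ₀, fun σ => ?_⟩
  · obtain ⟨φ⟩ : Nonempty (E →+* ℂ) := inferInstance
    have h1 : (starRingEnd ℂ) (φ x) = - φ x := by
      rw [← IsCMField.complexEmbedding_complexConj, hconj, map_neg]
    have h2 : (φ x) ^ 2 = (d : ℂ) := by rw [← map_pow, hxd, map_ratCast]
    have h3 : (φ x).re = 0 := by
      have := congrArg Complex.re h1
      simp only [Complex.conj_re, Complex.neg_re] at this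
      linarith
    have h4 : (φ x).im ≠ 0 := by
      intro h4
      have h5 : φ x = 0 := Complex.ext h3 h4
      exact hx0 ((map_eq_zero φ).1 h5)
    have h5 : ((d : ℝ) : ℂ).re = -((φ x).im) ^ 2 := by
      have := congrArg Complex.re h2
      rw [sq, Complex.mul_re, h3] at this
      have h6 : ((d : ℂ)).re = ((d : ℝ) : ℂ).re := by norm_cast
      rw [← h6, ← this]
      ring
    rw [Complex.ofReal_re] at h5
    have h6 : (d : ℝ) < 0 := by
      rw [h5]
      have := sq_pos_of_ne_zero h4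
      linarith
    exact_mod_cast h6
  · obtain ⟨g, rfl⟩ := exists_act_eq σ₀ σ
    change ((f (act g σ₀) : ℚ) : Qb) * s = (f σ₀ : Qb) * g (σ₀ x)
    rw [hx]
    rcases hsq g with h3 | h3
    · have h4 := congrFun h3.1 (act g σ₀)
      change f (act g⁻¹ (act g σ₀)) = f (act g σ₀) at h4
      rw [act_inv_act] at h4
      rw [← h4, h3.2]
    · have h4 := congrFun h3.1 (act g σ₀)
      change f (act g⁻¹ (act g σ₀)) = - f (act g σ₀) at h4
      rw [act_inv_act] at h4
      rw [h4, h3.2]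
      push_cast
      ring

/-- the sum of all logarithms -/
lemma sum_log (hu : ∀ φ : E →+* ℂ, ‖φ α‖ = 1) : ∑ σ : E →+* Qb, Real.log ‖ι (σ α)‖ = 0 := by
  have h1 : ∑ σ : E →+* Qb, Real.log ‖ι (cj σ α)‖ = ∑ σ : E →+* Qb, Real.log ‖ι (σ α)‖ :=
    Fintype.sum_equiv ⟨cj, cj, cj_cj, cj_cj⟩ _ _ fun _ => rfl
  have h2 : ∑ σ : E →+* Qb, Real.log ‖ι (cj σ α)‖ = - ∑ σ : E →+* Qb, Real.log ‖ι (σ α)‖ := by
    rw [← Finset.sum_neg_distrib]
    refine Finset.sum_congr rfl fun σ _ => ?_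
    rw [cj_norm hu, Real.log_inv]
  linarith

/-- **There is no invariant line of relations.** -/
theorem no_line (hu : ∀ φ : E →+* ℂ, ‖φ α‖ = 1) (hq : NoQuadraticNormRelation ι α)
    {f : (E →+* Qb) → ℚ} (hf : IsOddFun f) (hL : ∀ g, Lg ι α f g = 0) (hf0 : f ≠ 0)
    (hline : ∀ g : GQ, ∃ c : ℚ, tl g f = c • f) : False := by
  classical
  obtain ⟨x, d, s, σ₀, hd, hxd, hs, hσ₀, hval⟩ := quadratic_of_line' hf hf0 hline
  obtain ⟨s', hs'⟩ := hq x d hd hxd
  apply hs'
  have hsum := sum_log (ι := ι) hu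
  have hx0 : x ≠ 0 := by
    rintro rfl
    rw [zero_pow two_ne_zero] at hxd
    have h1 : d = 0 := by
      have h2 : ((0 : ℚ) : E) = (d : E) := by rw [← hxd, Rat.cast_zero]
      exact_mod_cast h2.symm
    exact hd.ne h1
  by_cases hne : ∃ σ₁ : E →+* Qb, σ₁ x = s'
  · obtain ⟨σ₁, hσ₁⟩ := hne
    have hf1 : f σ₁ ≠ 0 := by
      intro h
      have h1 := hval σ₁
      rw [h, Rat.cast_zero, zero_mul] at h1
      rcases mul_eq_zero.1 h1.symm with h2 | h2
      · exact hσ₀ (by exact_mod_cast h2)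
      · exact hx0 ((map_eq_zero σ₁).1 h2)
    have hf1' : ((f σ₁ : ℚ) : ℝ) ≠ 0 := by exact_mod_cast hf1
    have hcase : ∀ σ : E →+* Qb, (σ x = s' ∧ f σ = f σ₁) ∨ (σ x ≠ s' ∧ f σ = - f σ₁) := by
      intro σ
      have h1 := hval σ
      have h2 := hval σ₁
      rw [hσ₁] at h2
      have hx2 : (σ x) ^ 2 = s' ^ 2 := by
        rw [← hσ₁, ← map_pow, ← map_pow, hxd, map_ratCast, map_ratCast]
      rcases sq_eq_sq_iff_eq_or_eq_neg.1 hx2 with h3 | h3
      · left
        refine ⟨h3, ?_⟩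
        rw [h3, ← h2] at h1
        have h4 := mul_right_cancel₀ hs h1
        exact_mod_cast h4
      · right
        have h5 : ((f σ : ℚ) : Qb) = ((- f σ₁ : ℚ) : Qb) := by
          rw [h3, mul_neg, ← h2, ← neg_mul] at h1
          have h4 := mul_right_cancel₀ hs h1
          push_cast
          exact h4
        have h6 : f σ = - f σ₁ := by exact_mod_cast h5
        refine ⟨fun h7 => ?_, h6⟩
        rw [h7, ← h2] at h1
        have h4 := mul_right_cancel₀ hs h1
        have h8 : f σ = f σ₁ := by exact_mod_cast h4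
        apply hf1
        linarith
    have hpos : ∀ σ : E →+* Qb, ‖ι (σ α)‖ ≠ 0 := fun σ => (norm_pos' hu σ).ne'
    have h1 : Real.log (∏ σ : {σ : E →+* Qb // σ x = s'}, ‖ι (σ.1 α)‖) = 0 := by
      rw [Real.log_prod fun σ _ => hpos σ.1]
      have h2 : ∑ σ : {σ : E →+* Qb // σ x = s'}, Real.log ‖ι (σ.1 α)‖ =
          ∑ σ : E →+* Qb, (if σ x = s' then Real.log ‖ι (σ α)‖ else 0) := by
        rw [← Finset.sum_filter]
        exact (Finset.sum_subtype _ (fun σ => by simp) fun σ : E →+* Qb =>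
          Real.log ‖ι (σ α)‖).symm
      have h3 : ∀ σ : E →+* Qb, (if σ x = s' then Real.log ‖ι (σ α)‖ else 0) =
          (1 / 2) * Real.log ‖ι (σ α)‖ +
            (1 / (2 * (f σ₁ : ℝ))) * ((f σ : ℝ) * Real.log ‖ι (σ α)‖) := by
        intro σ
        rcases hcase σ with ⟨h4, h5⟩ | ⟨h4, h5⟩
        · rw [if_pos h4, h5]
          field_simp
          ring
        · rw [if_neg h4, h5]
          push_cast
          field_simp
          ring
      rw [h2, Finset.sum_congr rfl fun σ _ => h3 σ, Finset.sum_add_distrib, ← Finset.mul_sum,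
        ← Finset.mul_sum, hsum, mul_zero, zero_add]
      have h4 : ∑ σ : E →+* Qb, (f σ : ℝ) * Real.log ‖ι (σ α)‖ = 0 := hL 1
      rw [h4, mul_zero]
    have h2 : 0 < ∏ σ : {σ : E →+* Qb // σ x = s'}, ‖ι (σ.1 α)‖ :=
      Finset.prod_pos fun σ _ => norm_pos' hu σ.1
    exact Real.eq_one_of_pos_of_log_eq_zero h2 h1
  · have : IsEmpty {σ : E →+* Qb // σ x = s'} := ⟨fun σ => hne ⟨σ.1, σ.2⟩⟩
    exact Finset.prod_of_isEmpty _

/-! ### The relations -/

/-- the space of all relations -/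
noncomputable def rels (ι : Qb →+* PadicAlgCl p) (α : E) : Submodule ℚ ((E →+* Qb) → ℚ) where
  carrier := {f | IsOddFun f ∧ ∀ g : GQ, Lg ι α f g = 0}
  add_mem' := by
    rintro a b ⟨ha, ha'⟩ ⟨hb, hb'⟩
    exact ⟨odd_add ha hb, fun g => by rw [Lg_add, ha', hb', add_zero]⟩
  zero_mem' := ⟨odd_zero, fun g => Lg_zero g⟩
  smul_mem' := by
    rintro c a ⟨ha, ha'⟩
    exact ⟨odd_smul ha c, fun g => by rw [Lg_smul, ha', mul_zero]⟩

lemma mem_rels {f : (E →+* Qb) → ℚ} :
    f ∈ rels ι α ↔ IsOddFun f ∧ ∀ g : GQ, Lg ι α f g = 0 := Iff.rfl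

lemma rels_stable (g : GQ) : ∀ f ∈ rels ι α, tl g f ∈ rels ι α := by
  rintro f ⟨hf, hL⟩
  refine ⟨odd_tl hf g, fun k => ?_⟩
  have h1 := Lg_tl (ι := ι) (α := α) f g⁻¹ k
  rw [inv_inv] at h1
  exact h1.trans (hL _)

lemma free_iff_rels : Free ι α ↔ rels ι α = ⊥ := by
  constructor
  · intro h
    rw [eq_bot_iff]
    rintro f ⟨hf, hL⟩
    exact (Submodule.mem_bot ℚ).2 (h f hf hL)
  · intro h f hf hL
    have h1 : f ∈ rels ι α := ⟨hf, hL⟩
    rw [h] at h1
    exact (Submodule.mem_bot ℚ).1 h1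

lemma Lg_dl (hu : ∀ φ : E →+* ℂ, ‖φ α‖ = 1) (σ : E →+* Qb) :
    Lg ι α (dl σ) 1 = 2 * Real.log ‖ι (σ α)‖ := by
  classical
  unfold Lg
  rw [← Finset.sum_subset (Finset.subset_univ {σ, cj σ})]
  · rw [Finset.sum_pair (cj_ne σ).symm, dl_self]
    have h3 : dl σ (cj σ) = -1 := by
      have := odd_dl σ σ
      change dl σ (cj σ) = - dl σ σ at this
      rw [this, dl_self]
    rw [h3]
    change ((1 : ℚ) : ℝ) * Real.log ‖ι (σ α)‖ + ((-1 : ℚ) : ℝ) * Real.log ‖ι (cj σ α)‖ = _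
    rw [cj_norm hu, Real.log_inv]
    push_cast
    ring
  · intro τ _ hτ
    rw [Finset.mem_insert, Finset.mem_singleton, not_or] at hτ
    rw [dl_apply, if_neg hτ.1, if_neg hτ.2]
    simp

/-- differences of embeddings which are relations -/
lemma norm_eq_of_dl (hu : ∀ φ : E →+* ℂ, ‖φ α‖ = 1) {σ τ : E →+* Qb}
    (h : dl σ - dl τ ∈ rels ι α) : ‖ι (σ α)‖ = ‖ι (τ α)‖ := by
  have h1 := h.2 1
  rw [Lg_sub, Lg_dl hu, Lg_dl hu] at h1
  exact Real.log_injOn_pos (norm_pos' hu σ) (norm_pos' hu τ) (by linarith)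

/-- **a proper subspace has an orthogonal function** which is not orthogonal to a given function -/
theorem exists_perp' {P : Submodule ℚ ((E →+* Qb) → ℚ)} (hodd : ∀ f ∈ P, IsOddFun f)
    {f₀ : (E →+* Qb) → ℚ} (hf₀ : IsOddFun f₀) (hP : f₀ ∉ P) :
    ∃ m ∈ perp P, ∑ σ, f₀ σ * m σ ≠ 0 := by
  classical
  by_contra hcon
  push Not at hcon
  -- `f₀` is orthogonal to the orthogonal complement
  obtain ⟨φ, h1, h2⟩ := Submodule.exists_dual_map_eq_bot_of_notMem hP inferInstance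
  have hφ : ∀ f : (E →+* Qb) → ℚ, φ f = ∑ σ, f σ * φ (Pi.single σ 1) := by
    intro f
    conv_lhs => rw [← Finset.univ_sum_single f]
    rw [map_sum]
    refine Finset.sum_congr rfl fun σ _ => ?_
    have h3 : (Pi.single σ (f σ) : (E →+* Qb) → ℚ) = f σ • Pi.single σ 1 := by
      rw [← Pi.single_smul, smul_eq_mul, mul_one]
    rw [h3, map_smul, smul_eq_mul]
  let m : (E →+* Qb) → ℚ := fun σ => φ (Pi.single σ 1) - φ (Pi.single (cj σ) 1)
  have hm : ∀ f, IsOddFun f → ∑ σ, f σ * m σ = 2 * φ f := by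
    intro f hf
    have h3 : ∑ σ, f σ * φ (Pi.single (cj σ) 1) = - ∑ σ, f σ * φ (Pi.single σ 1) := by
      rw [← Finset.sum_neg_distrib]
      refine Fintype.sum_equiv ⟨cj, cj, cj_cj, cj_cj⟩ _ _ fun σ => ?_
      change _ = - (f (cj σ) * φ (Pi.single (cj σ) 1))
      have h4 : f (cj σ) = - f σ := hf σ
      rw [h4]
      ring
    simp only [m, mul_sub, Finset.sum_sub_distrib]
    rw [h3, ← hφ]
    ring
  apply h1
  have h3 := hcon m ⟨?_, fun f hf => ?_⟩
  · rw [hm f₀ hf₀] at h3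
    linarith
  · intro σ
    change φ (Pi.single (cj σ) 1) - φ (Pi.single (cj (cj σ)) 1) = -(_ - _)
    rw [cj_cj]
    ring
  · rw [hm f (hodd f hf)]
    have h3 : φ f ∈ P.map φ := Submodule.mem_map_of_mem hf
    rw [h2, Submodule.mem_bot] at h3
    rw [h3, mul_zero]

lemma sum_dl {m : (E →+* Qb) → ℚ} (hm : IsOddFun m) (σ : E →+* Qb) :
    ∑ ρ, dl σ ρ * m ρ = 2 * m σ := by
  classical
  rw [← Finset.sum_subset (Finset.subset_univ {σ, cj σ})]
  · rw [Finset.sum_pair (cj_ne σ).symm, dl_self]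
    have h3 : dl σ (cj σ) = -1 := by
      have := odd_dl σ σ
      change dl σ (cj σ) = - dl σ σ at this
      rw [this, dl_self]
    have h4 : m (cj σ) = - m σ := hm σ
    rw [h3, h4]
    ring
  · intro τ _ hτ
    rw [Finset.mem_insert, Finset.mem_singleton, not_or] at hτ
    rw [dl_apply, if_neg hτ.1, if_neg hτ.2]
    simp

/-- **There is no invariant line orthogonal to the relations.** -/
theorem no_perp_line (hu : ∀ φ : E →+* ℂ, ‖φ α‖ = 1) (hq : SlopesNotQuadratic ι α)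
    {m₀ : (E →+* Qb) → ℚ} (hm₀ : IsOddFun m₀) (hm₀0 : m₀ ≠ 0)
    (hline : ∀ g : GQ, ∃ c : ℚ, tl g m₀ = c • m₀)
    (hall : ∀ m ∈ perp (rels ι α), ∃ c : ℚ, m = c • m₀) : False := by
  classical
  obtain ⟨x, d, s, σ₀, hd, hxd, hs, hσ₀, hval⟩ := quadratic_of_line' hm₀ hm₀0 hline
  obtain ⟨σ, τ, hστ, hne⟩ := hq x d hd hxd
  apply hne
  apply norm_eq_of_dl hu
  by_contra hcon
  obtain ⟨m, hm, hm1⟩ := exists_perp' (P := rels ι α) (fun f hf => hf.1)
    (odd_sub (odd_dl σ) (odd_dl τ)) hcon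
  apply hm1
  obtain ⟨c, rfl⟩ := hall m hm
  have h1 : ∑ ρ, (dl σ - dl τ) ρ * (c • m₀) ρ = 2 * (c • m₀) σ - 2 * (c • m₀) τ := by
    rw [← sum_dl hm.1 σ, ← sum_dl hm.1 τ, ← Finset.sum_sub_distrib]
    refine Finset.sum_congr rfl fun ρ _ => ?_
    rw [Pi.sub_apply]
    ring
  rw [h1, Pi.smul_apply, Pi.smul_apply, smul_eq_mul, smul_eq_mul]
  have h2 : m₀ σ = m₀ τ := by
    have h3 := hval σ
    rw [hστ, ← hval τ] at h3
    have h4 := mul_right_cancel₀ hs h3
    exact_mod_cast h4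
  rw [h2, sub_self]

end Pool.Agent.NH33.Pq
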