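import Pool.Agent.NH33.Pq.Defs
import Pool.Agent.NH33.Nw.Core

/-!
# Primitive real subfields and invariant equivalence relations
-/

set_option autoImplicit false
set_option linter.unusedSectionVars false

namespace Pool.Agent.NH33.Pq

open NumberField Polynomial Module Pool.Agent.TH121.KT Pool.Agent.Y103.Hk Pool.Agent.Y103.Sh
  Pool.Agent.NH33.Ir

variable {E : Type} [Field E] [NumberField E] [IsCMField E]

/-- a Galois-invariant equivalence relation on the pairs of conjugate embeddings -/
structure IsCongr (R : (E →+* Qb) → (E →+* Qb) → Prop) : Prop where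
  refl : ∀ σ, R σ σ
  symm : ∀ {σ τ}, R σ τ → R τ σ
  trans : ∀ {σ τ ρ}, R σ τ → R τ ρ → R σ ρ
  conj : ∀ σ, R σ (cj σ)
  act : ∀ (g : GQ) {σ τ}, R σ τ → R (act g σ) (act g τ)

/-- embeddings which agree on the real elements -/
lemma same_of_real {σ τ : E →+* Qb}
    (h : ∀ x, IsCMField.complexConj E x = x → τ x = σ x) : Same τ σ := by
  by_contra hcon
  have h1 : τ ≠ σ ∧ τ ≠ cj σ := not_or.1 hcon
  obtain ⟨x, hx⟩ : ∃ x, τ x ≠ σ x := by
    by_contra h2
    push Not at h2
    exact h1.1 (RingHom.ext h2)
  obtain ⟨y, hy⟩ : ∃ y, τ y ≠ cj σ y := by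
    by_contra h2
    push Not at h2
    exact h1.2 (RingHom.ext h2)
  have hcc : ∀ z, IsCMField.complexConj E (IsCMField.complexConj E z) = z :=
    IsCMField.complexConj_apply_apply E
  have key : ∀ z, τ z = σ z ∨ τ z = cj σ z := by
    intro z
    have h2 := h (z + IsCMField.complexConj E z) (by rw [map_add, hcc, add_comm])
    have h3 := h (z * IsCMField.complexConj E z) (by rw [map_mul, hcc, mul_comm])
    rw [map_add, map_add] at h2
    rw [map_mul, map_mul] at h3
    have h4 : (τ z - σ z) * (τ z - cj σ z) = 0 := by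
      change (τ z - σ z) * (τ z - σ (IsCMField.complexConj E z)) = 0
      linear_combination (τ z) * h2 - h3
    rcases mul_eq_zero.1 h4 with h5 | h5
    · exact Or.inl (sub_eq_zero.1 h5)
    · exact Or.inr (sub_eq_zero.1 h5)
  have hx' := (key x).resolve_left hx
  have hy' := (key y).resolve_right hy
  rcases key (x + y) with h2 | h2
  · rw [map_add, map_add, hy'] at h2
    exact hx (add_right_cancel h2)
  · rw [map_add, map_add, hx'] at h2
    exact hy (add_left_cancel h2)

/-- **Primitivity.** -/
theorem prim (hE : HasPrimitiveRealSubfield E) {R : (E →+* Qb) → (E →+* Qb) → Prop}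
    (hR : IsCongr R) : (∀ σ τ, R σ τ → Same σ τ) ∨ ∀ σ τ, R σ τ := by
  classical
  -- it is enough to consider one class
  have hsuff : ∀ σ₀ : E →+* Qb, (∀ τ, R τ σ₀ → Same τ σ₀) ∨ ∀ τ, R τ σ₀ := by
    intro σ₀
    -- the subfield
    let F : Subfield E :=
      { carrier := {x | ∀ g : GQ, R (act g σ₀) σ₀ → g (σ₀ x) = σ₀ x}
        mul_mem' := fun ha hb g hg => by rw [map_mul, map_mul, ha g hg, hb g hg]
        one_mem' := fun g _ => by rw [map_one, map_one]
        add_mem' := fun ha hb g hg => by rw [map_add, map_add, ha g hg, hb g hg]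
        zero_mem' := fun g _ => by rw [map_zero, map_zero]
        neg_mem' := fun ha g hg => by rw [map_neg, map_neg, ha g hg]
        inv_mem' := fun x ha g hg => by rw [map_inv₀, map_inv₀, ha g hg] }
    have hF : ∀ x, x ∈ F ↔ ∀ g : GQ, R (act g σ₀) σ₀ → g (σ₀ x) = σ₀ x := fun x => Iff.rfl
    obtain ⟨c, hc⟩ := Nw.exists_conj
    have hle : F ≤ maximalRealSubfield E := by
      intro x hx
      rw [← IsCMField.complexConj_eq_self_iff]
      have h1 := (hF x).1 hx c (by rw [hc]; exact hR.symm (hR.conj σ₀))
      apply σ₀.injective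
      rw [← h1]
      exact (RingHom.congr_fun (hc E σ₀) x).symm
    rcases hle.eq_or_lt with h | h
    · left
      intro τ hτ
      obtain ⟨g, rfl⟩ := exists_act_eq σ₀ τ
      refine same_of_real fun x hx => ?_
      have h1 : x ∈ F := by
        rw [h, ← IsCMField.complexConj_eq_self_iff]
        exact hx
      exact (hF x).1 h1 g hτ
    · right
      have hbot := hE F h
      -- the partial traces are rational
      have htr : ∀ z : E, ∃ q : ℚ, ∑ τ : E →+* Qb, (if R τ σ₀ then τ z else 0) = (q : Qb) := by
        intro z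
        have hfix : ∀ g : GQ, R (act g σ₀) σ₀ →
            g (∑ τ : E →+* Qb, (if R τ σ₀ then τ z else 0)) =
              ∑ τ : E →+* Qb, (if R τ σ₀ then τ z else 0) := by
          intro g hg
          rw [map_sum, ← sum_act g fun τ => (if R τ σ₀ then τ z else 0)]
          refine Finset.sum_congr rfl fun τ _ => ?_
          have h1 : R (act g τ) σ₀ ↔ R τ σ₀ := by
            constructor
            · intro h2
              have h3 := hR.act g⁻¹ (hR.trans h2 (hR.symm hg))
              rwa [act_inv_act, act_inv_act] at h3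
            · intro h2
              exact hR.trans (hR.act g h2) hg
          by_cases h2 : R τ σ₀
          · rw [if_pos h2, if_pos (h1.2 h2)]
            rfl
          · rw [if_neg h2, if_neg fun h3 => h2 (h1.1 h3), map_zero]
        obtain ⟨x, hx⟩ : ∃ x : E, σ₀ x = ∑ τ : E →+* Qb, (if R τ σ₀ then τ z else 0) := by
          have h1 : ∑ τ : E →+* Qb, (if R τ σ₀ then τ z else 0) ∈ σ₀.toRatAlgHom.fieldRange := by
            refine mem_of_fixed _ fun h hh => hfix h ?_
            have h2 : act h σ₀ = σ₀ := by
              ext y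
              exact hh (σ₀ y) ⟨y, rfl⟩
            rw [h2]
            exact hR.refl _
          obtain ⟨x, hx⟩ := h1
          exact ⟨x, hx⟩
        have h1 : x ∈ F := by
          rw [hF]
          intro g hg
          rw [hx]
          exact hfix g hg
        rw [hbot, Subfield.bot_eq_of_charZero] at h1
        obtain ⟨q, hq⟩ := h1
        refine ⟨q, ?_⟩
        rw [← hx, ← hq, eq_ratCast, map_ratCast]
      intro τ
      obtain ⟨g, rfl⟩ := exists_act_eq σ₀ τ
      -- linear independence
      have hlin := linearIndependent_monoidHom E Qb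
      have h1 : LinearIndependent Qb (fun σ : E →+* Qb => ((σ : E →* Qb) : E → Qb)) :=
        hlin.comp (fun σ : E →+* Qb => (σ : E →* Qb)) (by
          intro a b hab
          ext x
          exact DFunLike.congr_fun hab x)
      rw [Fintype.linearIndependent_iff] at h1
      have h2 := h1 (fun τ => (if R (act g⁻¹ τ) σ₀ then 1 else 0) - (if R τ σ₀ then 1 else 0)) (by
        funext z
        simp only [Finset.sum_apply, Pi.smul_apply, smul_eq_mul, Pi.zero_apply, sub_mul,
          Finset.sum_sub_distrib, ite_mul, one_mul, zero_mul]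
        rw [sub_eq_zero]
        obtain ⟨q, hq⟩ := htr z
        have h3 : g (∑ τ : E →+* Qb, (if R τ σ₀ then τ z else 0)) =
            ∑ τ : E →+* Qb, (if R (act g⁻¹ τ) σ₀ then τ z else 0) := by
          rw [map_sum, ← sum_act g fun τ => (if R (act g⁻¹ τ) σ₀ then τ z else 0)]
          refine Finset.sum_congr rfl fun τ _ => ?_
          rw [act_inv_act]
          by_cases h4 : R τ σ₀
          · rw [if_pos h4, if_pos h4]
            rfl
          · rw [if_neg h4, if_neg h4, map_zero]
        rw [hq, map_ratCast, ← hq] at h3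
        exact h3.symm) (act g σ₀)
      rw [act_inv_act, if_pos (hR.refl σ₀)] at h2
      by_contra hcon
      rw [if_neg hcon] at h2
      simp at h2
  by_cases hall : ∀ σ τ, R σ τ
  · exact Or.inr hall
  · left
    push Not at hall
    obtain ⟨σ₁, τ₁, hne⟩ := hall
    intro σ τ h
    rcases hsuff τ with h1 | h1
    · exact h1 σ h
    · exact absurd (hR.trans (h1 σ₁) (hR.symm (h1 τ₁))) hne

end Pool.Agent.NH33.Pq
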